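import Pool.Agent.T9h99.KC

/-! Transcendence-degree arguments. -/

namespace Pool.Agent.T9h99

set_option linter.unusedSectionVars false

open MvPolynomial

variable {K : Type*} [Field K]

/-- more polynomials than variables: there is an algebraic relation. -/
theorem exists_relation {σ ι : Type} [Fintype σ] [Fintype ι] (Φ : ι → MvPolynomial σ K)
    (h : Fintype.card σ < Fintype.card ι) :
    ∃ Q : MvPolynomial ι K, Q ≠ 0 ∧ aeval Φ Q = 0 := by
  by_contra hcon
  push Not at hcon
  have hind : AlgebraicIndependent K Φ := by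
    rw [algebraicIndependent_iff]
    intro p hp
    by_contra hne
    exact hcon p hne hp
  have h1 := hind.lift_cardinalMk_le_trdeg
  rw [MvPolynomial.trdeg_of_isDomain] at h1
  simp only [Cardinal.mk_fintype, Cardinal.lift_natCast, Nat.cast_le] at h1
  omega

/-- If the image of a polynomial map `K^σ → K^ι` is Zariski dense (in the weak form stated),
then `|ι| ≤ |σ|`. -/
theorem card_le_of_dense [Infinite K] {σ ι : Type} [Fintype σ] [Fintype ι]
    (Φ : ι → MvPolynomial σ K) (b0 : ι)
    (h : ∀ g : ι → K, g b0 ≠ 0 → ∀ Q : MvPolynomial ι K,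
      (∀ z : σ → K, eval (fun b => eval z (Φ b)) Q = 0) → eval g Q = 0) :
    Fintype.card ι ≤ Fintype.card σ := by
  by_contra hlt
  push Not at hlt
  obtain ⟨Q, hQ0, hQ⟩ := exists_relation Φ hlt
  have hz : ∀ z : σ → K, eval (fun b => eval z (Φ b)) Q = 0 := by
    intro z
    have hcomp : (eval z).comp ((aeval Φ : MvPolynomial ι K →ₐ[K] MvPolynomial σ K) :
        MvPolynomial ι K →+* MvPolynomial σ K) = eval (fun b => eval z (Φ b)) := by
      apply MvPolynomial.ringHom_ext
      · intro r; simp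
      · intro i; simp
    rw [← hcomp, RingHom.comp_apply]
    show eval z (aeval Φ Q) = 0
    rw [hQ, map_zero]
  have hX : (X b0 : MvPolynomial ι K) * Q = 0 := by
    apply MvPolynomial.funext
    intro g
    rw [map_mul, eval_X, map_zero]
    by_cases hg : g b0 = 0
    · rw [hg, zero_mul]
    · rw [h g hg Q hz, mul_zero]
  rcases mul_eq_zero.1 hX with h1 | h1
  · exact X_ne_zero b0 h1
  · exact hQ0 h1

section rank

variable {τ : Type} [Fintype τ] [DecidableEq τ]

/-- rank factorization -/
theorem exists_factor {n : ℕ} (A : Matrix (Fin n) (Fin n) K) :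
    ∃ (U : Matrix (Fin n) (Fin A.rank) K) (V : Matrix (Fin A.rank) (Fin n) K), A = U * V := by
  let b := Module.finBasisOfFinrankEq K (LinearMap.range A.mulVecLin) (n := A.rank) rfl
  refine ⟨Matrix.of fun i k => (b k : Fin n → K) i,
    Matrix.of fun k j => b.repr ⟨A.mulVecLin (Pi.single j 1), LinearMap.mem_range_self _ _⟩ k, ?_⟩
  ext i j
  rw [Matrix.mul_apply]
  have h := b.sum_repr ⟨A.mulVecLin (Pi.single j 1), LinearMap.mem_range_self _ _⟩
  have h2 := congrArg (fun x : LinearMap.range A.mulVecLin => (x : Fin n → K) i) h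
  simp only [AddSubmonoidClass.coe_finsetSum, Submodule.coe_smul, Finset.sum_apply, Pi.smul_apply,
    smul_eq_mul, Matrix.mulVecLin_apply, Matrix.mulVec_single_one, Matrix.col_apply] at h2
  rw [← h2]
  refine Finset.sum_congr rfl fun k _ => ?_
  simp only [Matrix.of_apply, Matrix.mulVecLin_apply, Matrix.mulVec_single_one]
  rw [mul_comm]

/-- the parametrizing polynomials -/
noncomputable def Φr (ν : τ → ℕ) {ι : Type} (d : ι → τ → K) (b : ι) :
    MvPolynomial (Option ((Σ t, Fin (ν t)) × (Σ t, Fin (ν t)))) K :=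
  X none * (1 + (Matrix.diagonal fun s : (Σ t, Fin (ν t)) => C (d b s.1)) *
    Matrix.of fun i j => X (some (i, j))).det

theorem eval_Φr (ν : τ → ℕ) {ι : Type} (d : ι → τ → K) (b : ι)
    (z : Option ((Σ t, Fin (ν t)) × (Σ t, Fin (ν t))) → K) :
    eval z (Φr ν d b) = z none * (1 + (Matrix.diagonal fun s : (Σ t, Fin (ν t)) => d b s.1) *
      Matrix.of fun i j => z (some (i, j))).det := by
  rw [Φr, map_mul, eval_X, RingHom.map_det]
  congr 2
  ext i j
  simp [Matrix.one_apply, Matrix.diagonal_mul, apply_ite (eval z)]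

theorem card_param (ν : τ → ℕ) :
    Fintype.card (Option ((Σ t, Fin (ν t)) × (Σ t, Fin (ν t)))) = (∑ t, ν t) ^ 2 + 1 := by
  rw [Fintype.card_option, Fintype.card_prod, Fintype.card_sigma]
  simp
  ring

/-- the determinant as a polynomial in few parameters -/
theorem det_param {n : ℕ} (M0 : Matrix (Fin n) (Fin n) K) (h0 : M0.det ≠ 0)
    (A : τ → Matrix (Fin n) (Fin n) K) {ι : Type} (d : ι → τ → K) (ν : τ → ℕ)
    (hν : ν = fun t => (A t).rank) :
    ∃ z : Option ((Σ t, Fin (ν t)) × (Σ t, Fin (ν t))) → K, ∀ b,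
      (M0 + ∑ t, d b t • A t).det = eval z (Φr ν d b) := by
  subst hν
  choose U V hUV using fun t => exists_factor (A t)
  let UU : Matrix (Fin n) (Σ t, Fin (A t).rank) K := Matrix.of fun i s => U s.1 i s.2
  let VV : Matrix (Σ t, Fin (A t).rank) (Fin n) K := Matrix.of fun s j => V s.1 s.2 j
  refine ⟨fun o => o.elim M0.det fun p => (VV * M0⁻¹ * UU) p.1 p.2, fun b => ?_⟩
  rw [eval_Φr]
  have h1 : ∑ t, d b t • A t =
      UU * ((Matrix.diagonal fun s : (Σ t, Fin (A t).rank) => d b s.1) * VV) := by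
    ext i j
    rw [Matrix.sum_apply, Matrix.mul_apply, Fintype.sum_sigma]
    refine Finset.sum_congr rfl fun t _ => ?_
    conv_lhs => rw [hUV t]
    rw [Matrix.smul_apply, Matrix.mul_apply, Finset.smul_sum]
    refine Finset.sum_congr rfl fun k _ => ?_
    rw [Matrix.diagonal_mul]
    simp only [UU, VV, Matrix.of_apply, smul_eq_mul]
    ring
  rw [h1, Matrix.det_add_mul _ _ (isUnit_iff_ne_zero.2 h0)]
  simp only [Option.elim_none, Option.elim_some]
  congr 3
  rw [Matrix.mul_assoc, Matrix.mul_assoc]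
  congr 1
  rw [← Matrix.mul_assoc]
  rfl

end rank

end Pool.Agent.T9h99
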