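import Pool.Agent.T9h99.Algebra

/-! The rank bounds for (border) determinantal representations of the permanent. -/

namespace Pool.Agent.T9h99

set_option linter.unusedSectionVars false

open MvPolynomial

variable {K : Type*} [Field K]

theorem lin_sum {m n : ℕ} {τ : Type*} [Fintype τ] (ρ γ : τ → Fin m)
    (A : Fin m → Fin m → Matrix (Fin n) (Fin n) K) (x0 : Matrix (Fin m) (Fin m) K) (Y : τ → K) :
    ∑ i, ∑ j, (x0 + ∑ t, Matrix.single (ρ t) (γ t) (Y t)) i j • A i j =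
      ∑ i, ∑ j, x0 i j • A i j + ∑ t, Y t • A (ρ t) (γ t) := by
  have h : ∀ t, Y t • A (ρ t) (γ t) =
      ∑ i, ∑ j, (Matrix.single (ρ t) (γ t) (Y t)) i j • A i j := by
    intro t
    rw [Finset.sum_eq_single (ρ t), Finset.sum_eq_single (γ t)]
    · rw [Matrix.single_apply_same]
    · intro j _ hj
      rw [Matrix.single_apply_of_ne, zero_smul]
      tauto
    · intro h; exact absurd (Finset.mem_univ _) h
    · intro i _ hi
      apply Finset.sum_eq_zero
      intro j _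
      rw [Matrix.single_apply_of_ne, zero_smul]
      tauto
    · intro h; exact absurd (Finset.mem_univ _) h
  have h3 : ∑ t, ∑ i, ∑ j, (Matrix.single (ρ t) (γ t) (Y t)) i j • A i j =
      ∑ i, ∑ j, ∑ t, (Matrix.single (ρ t) (γ t) (Y t)) i j • A i j := by
    rw [Finset.sum_comm]
    exact Finset.sum_congr rfl fun i _ => Finset.sum_comm
  rw [Finset.sum_congr rfl (fun t _ => h t), h3, ← Finset.sum_add_distrib]
  refine Finset.sum_congr rfl fun i _ => ?_
  rw [← Finset.sum_add_distrib]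
  refine Finset.sum_congr rfl fun j _ => ?_
  rw [← Finset.sum_smul, ← add_smul, Matrix.add_apply, Matrix.sum_apply]

theorem card_index (f : ℕ) : Fintype.card (Lev f × Lev f) = 4 ^ f := by
  rw [Fintype.card_prod, Fintype.card_coe, card_Lev, ← mul_pow]
  norm_num

theorem two_pow_le {f r : ℕ} (hf : 1 ≤ f) (h : 4 ^ f ≤ r ^ 2 + 1) : 2 ^ f ≤ r := by
  by_contra hlt
  push Not at hlt
  have h1 : (4 : ℕ) ^ f = 2 ^ f * 2 ^ f := by rw [← mul_pow]; norm_num
  have h2 : 2 ≤ 2 ^ f := by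
    calc 2 = 2 ^ 1 := rfl
      _ ≤ 2 ^ f := Nat.pow_le_pow_right (by norm_num) hf
  obtain ⟨s, hs⟩ : ∃ s, 2 ^ f = s + 1 := ⟨2 ^ f - 1, by omega⟩
  rw [h1, hs] at h
  have h3 : r ≤ s := by omega
  have h4 : r ^ 2 ≤ s ^ 2 := Nat.pow_le_pow_left h3 2
  have h5 : 1 ≤ s := by omega
  nlinarith

/-- base index -/
def b00 (f : ℕ) : Lev f × Lev f :=
  (⟨2 ^ f, mem_Lev.2 ⟨le_refl _, Nat.pow_lt_pow_right (by norm_num) (Nat.lt_succ_self f)⟩⟩,
   ⟨2 ^ f, mem_Lev.2 ⟨le_refl _, Nat.pow_lt_pow_right (by norm_num) (Nat.lt_succ_self f)⟩⟩)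

/-- the assignments -/
def YY (f : ℕ) (b : Lev f × Lev f) : Fin f ⊕ Fin f → K := Sum.elim (Yc f b.1) (Yc f b.2)

theorem exact_bound [Infinite K] (h2 : (2 : K) ≠ 0) {m n f : ℕ} (hf : 1 ≤ f)
    (hm : 4 * 2 ^ f + 2 * f ≤ m + 3) (A0 : Matrix (Fin n) (Fin n) K)
    (A : Fin m → Fin m → Matrix (Fin n) (Fin n) K)
    (H : ∀ x : Matrix (Fin m) (Fin m) K, (A0 + ∑ i, ∑ j, x i j • A i j).det = x.permanent)
    (ρ γ : Fin f ⊕ Fin f → Fin m) (hρ : Function.Injective ρ) (hγ : Function.Injective γ) :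
    2 ^ f ≤ ∑ t, (A (ρ t) (γ t)).rank := by
  apply two_pow_le hf
  rw [← card_index, ← card_param (fun t => (A (ρ t) (γ t)).rank)]
  apply card_le_of_dense (K := K)
    (Φr (fun t => (A (ρ t) (γ t)).rank) (fun b t => (YY f b t : K) - YY f (b00 f) t)) (b00 f)
  intro g hg Q hQ
  obtain ⟨x0, hx0⟩ := key h2 hm ρ γ hρ hγ g
  have hval : ∀ b, (A0 + (∑ i, ∑ j, x0 i j • A i j + ∑ t, (YY f b t : K) • A (ρ t) (γ t))).det = g b := by
    intro b
    rw [← hx0 b, ← H, lin_sum]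
    rfl
  let M0 := A0 + (∑ i, ∑ j, x0 i j • A i j + ∑ t, (YY f (b00 f) t : K) • A (ρ t) (γ t))
  obtain ⟨z, hz⟩ := det_param M0 (by rw [hval]; exact hg) (fun t => A (ρ t) (γ t))
    (fun b t => YY f b t - YY f (b00 f) t) _ rfl
  have hgz : g = fun b => eval z (Φr (fun t => (A (ρ t) (γ t)).rank)
      (fun b t => YY f b t - YY f (b00 f) t) b) := by
    funext b
    rw [← hz b, ← hval b]
    congr 1
    simp only [M0, sub_smul, Finset.sum_sub_distrib]
    abel
  rw [hgz]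
  exact hQ z

theorem border_bound {m f : ℕ} (hf : 1 ≤ f)
    (hm : 4 * 2 ^ f + 2 * f ≤ m + 3) (n : ℕ → ℕ) (A0 : ∀ k, Matrix (Fin (n k)) (Fin (n k)) ℂ)
    (A : ∀ k, Fin m → Fin m → Matrix (Fin (n k)) (Fin (n k)) ℂ)
    (H : ∀ x : Matrix (Fin m) (Fin m) ℂ, Filter.Tendsto
      (fun k => (A0 k + ∑ i, ∑ j, x i j • A k i j).det) Filter.atTop (nhds x.permanent))
    (ρ γ : Fin f ⊕ Fin f → Fin m) (hρ : Function.Injective ρ) (hγ : Function.Injective γ) :
    ∀ᶠ k in Filter.atTop, 2 ^ f ≤ ∑ t, (A k (ρ t) (γ t)).rank := by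
  have main : ∀ ν : Fin f ⊕ Fin f → Fin (2 ^ f), ∑ t, (ν t : ℕ) < 2 ^ f →
      ∀ᶠ k in Filter.atTop, ¬ ((fun t => (ν t : ℕ)) = fun t => (A k (ρ t) (γ t)).rank) := by
    intro ν hν
    by_contra hcon
    rw [Filter.not_eventually] at hcon
    simp only [not_not] at hcon
    have : 2 ^ f ≤ ∑ t, (ν t : ℕ) := by
      apply two_pow_le hf
      rw [← card_index, ← card_param (fun t => (ν t : ℕ))]
      apply card_le_of_dense (K := ℂ)
        (Φr (fun t => (ν t : ℕ)) (fun b t => (YY f b t : ℂ) - YY f (b00 f) t)) (b00 f)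
      intro g hg Q hQ
      obtain ⟨x0, hx0⟩ := key (K := ℂ) two_ne_zero hm ρ γ hρ hγ g
      let Gk : ℕ → (Lev f × Lev f) → ℂ := fun k b =>
        (A0 k + (∑ i, ∑ j, x0 i j • A k i j + ∑ t, (YY f b t : ℂ) • A k (ρ t) (γ t))).det
      have hGk : ∀ b, Filter.Tendsto (fun k => Gk k b) Filter.atTop (nhds (g b)) := by
        intro b
        rw [← hx0 b]
        have := H (x0 + ∑ t, Matrix.single (ρ t) (γ t) (Sum.elim (Yc f b.1) (Yc f b.2) t))
        simp only [lin_sum] at this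
        exact this
      have hG : Filter.Tendsto Gk Filter.atTop (nhds g) := tendsto_pi_nhds.2 hGk
      have hQt : Filter.Tendsto (fun k => eval (Gk k) Q) Filter.atTop (nhds (eval g Q)) :=
        ((MvPolynomial.continuous_eval Q).tendsto g).comp hG
      by_contra hne
      have he1 : ∀ᶠ k in Filter.atTop, eval (Gk k) Q ≠ 0 := hQt.eventually_ne hne
      have he2 : ∀ᶠ k in Filter.atTop, Gk k (b00 f) ≠ 0 := (hGk (b00 f)).eventually_ne hg
      obtain ⟨k, hk, hk1, hk2⟩ := (hcon.and_eventually (he1.and he2)).exists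
      apply hk1
      obtain ⟨z, hz⟩ := det_param
        (A0 k + (∑ i, ∑ j, x0 i j • A k i j + ∑ t, (YY f (b00 f) t : ℂ) • A k (ρ t) (γ t))) hk2
        (fun t => A k (ρ t) (γ t)) (fun b t => YY f b t - YY f (b00 f) t) _ hk
      have hgz : Gk k = fun b => eval z (Φr (fun t => (ν t : ℕ))
          (fun b t => YY f b t - YY f (b00 f) t) b) := by
        funext b
        rw [← hz b]
        simp only [Gk]
        congr 1
        simp only [sub_smul, Finset.sum_sub_distrib]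
        abel
      rw [hgz]
      exact hQ z
    omega
  have hall : ∀ᶠ k in Filter.atTop, ∀ ν : Fin f ⊕ Fin f → Fin (2 ^ f), ∑ t, (ν t : ℕ) < 2 ^ f →
      ¬ ((fun t => (ν t : ℕ)) = fun t => (A k (ρ t) (γ t)).rank) := by
    rw [Filter.eventually_all]
    intro ν
    by_cases hν : ∑ t, (ν t : ℕ) < 2 ^ f
    · filter_upwards [main ν hν] with k hk _
      exact hk
    · exact Filter.Eventually.of_forall fun k h => absurd h hν
  filter_upwards [hall] with k hk
  by_contra hlt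
  push Not at hlt
  have hb : ∀ t, (A k (ρ t) (γ t)).rank < 2 ^ f := fun t =>
    lt_of_le_of_lt (Finset.single_le_sum (f := fun t => (A k (ρ t) (γ t)).rank)
      (fun _ _ => Nat.zero_le _) (Finset.mem_univ t)) hlt
  exact hk (fun t => ⟨_, hb t⟩) hlt rfl

end Pool.Agent.T9h99
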