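import Mathlib

/-! Formulas whose leaves are constants and determinants of affine matrices. -/

namespace Pool.Agent.T9h99

/-- Algebraic formulas in the entries of an `m × m` matrix `x`.  The gates are addition and
multiplication, the leaves are complex constants and determinants of affine matrices
`A0 + ∑ x i j • A i j`, of any size `n`. -/
inductive DetFormula (m : ℕ) : Type
  | const (c : ℂ) : DetFormula m
  | det (n : ℕ) (A0 : Matrix (Fin n) (Fin n) ℂ)
      (A : Fin m → Fin m → Matrix (Fin n) (Fin n) ℂ) : DetFormula m
  | add (a b : DetFormula m) : DetFormula m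
  | mul (a b : DetFormula m) : DetFormula m

namespace DetFormula

/-- The value of a formula at the matrix `x`. -/
def eval {m : ℕ} : DetFormula m → Matrix (Fin m) (Fin m) ℂ → ℂ
  | const c, _ => c
  | det _ A0 A, x => (A0 + ∑ i, ∑ j, x i j • A i j).det
  | add a b, x => a.eval x + b.eval x
  | mul a b, x => a.eval x * b.eval x

/-- For a finite family of positions `(ρ t, γ t)`, the sum over all the determinants in the
formula of the square of the sum of the ranks of the coefficient matrices `A (ρ t) (γ t)`. -/
noncomputable def cost {m : ℕ} {τ : Type} [Fintype τ] (ρ γ : τ → Fin m) : DetFormula m → ℕ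
  | const _ => 0
  | det _ _ A => (∑ t, (A (ρ t) (γ t)).rank) ^ 2
  | add a b => a.cost ρ γ + b.cost ρ γ
  | mul a b => a.cost ρ γ + b.cost ρ γ

end DetFormula

end Pool.Agent.T9h99
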