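import Pool.Agent.T9h99.Poly

set_option autoImplicit false

/-!
# Determinantal representations of the permanent: ranks of the coefficient matrices

A determinantal representation of size `n` of a polynomial `P` in the variables `x i j`
(`i, j < m`) is an affine matrix `A0 + ∑ x i j • A i j`, with `A0` and all `A i j` complex
`n × n` matrices, whose determinant is `P`.  The determinant polynomial itself has a
representation in which all the coefficient matrices have rank one, so that the sum of their ranks
is `m ^ 2`.  The theorem says that in every determinantal representation of the permanent, of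
whatever size, the ranks of the `m ^ 2` coefficient matrices add up to at least
`m ^ 3 / (32 log m)`, and that this is so locally: for any `2 f` variables which lie in distinct
rows and distinct columns the sum `r` of the ranks of their coefficient matrices satisfies
`4 ^ f ≤ 1 + r ^ 2`, that is `r ≥ 2 ^ f`, as soon as `4 * 2 ^ f + 2 * f ≤ m + 3`.

More generally, the permanent may be given as an arbitrary polynomial `F` in `k` determinants of
affine matrices: the bound holds for the total rank of the coefficient matrices of all the `k`
matrices together, as long as `k ≤ m ^ 2 / 400`.  This range of `k` is best possible up to the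
constant, since the permanent is a polynomial in the `m ^ 2` determinants `det (x i j)` of size
one, with total rank `m ^ 2`.

All this is true also for border representations, that is, for sequences of affine matrices,
whose sizes may be unbounded, such that the value converges pointwise to the permanent (a constant
sequence is a representation in the usual sense).

Method.  Substitute constants for all the variables except the `2 f` chosen ones.  The values of
the resulting polynomial in `2 f` variables at a set of `4 ^ f` points are, on the side of the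
determinants, limits of values of polynomials in `k + ∑ r_s ^ 2` parameters, `r_s` the sum of the
`2 f` ranks for the `s`-th matrix (as `det (M + U D V) = det M * det (1 + D V M⁻¹ U)`).  On the
side of the permanent a network of size `4 * 2 ^ f + 2 * f - 3` with weights `0, 1, -1` shows that
these `4 ^ f` values can be prescribed arbitrarily.  Hence `4 ^ f ≤ k + ∑ r_s ^ 2`.  The network
has `f` centres, each joined to the nodes of one level of a binary tree; it uses that permanents
of such stars, unlike determinants, see whether the path through the tree meets the star.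
-/

namespace Pool.Agent.T9h99.DeterminantPolynomials

/-- Let `F` be a complex polynomial in `k` variables.  For `κ = 0, 1, 2, …` and `s < k` let
`A0 κ s` and `A κ s i j` (`i, j < m`) be complex matrices of size `n κ s`, such that for every
complex `m × m` matrix `x` the values of `F` at the `k` determinants
`det (A0 κ s + ∑ x i j • A κ s i j)`, `s < k`, converge to the permanent of `x` when `κ` tends to
infinity.  Then for all sufficiently large `κ`:

* for all `f` with `4 * 2 ^ f + 2 * f ≤ m + 3` and all positions `(ρ t, γ t)`, `t < 2 f`, in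
  distinct rows and distinct columns, `4 ^ f ≤ k + ∑ s, r_s ^ 2`, where `r_s` is the sum of the
  ranks of the `2 f` matrices `A κ s (ρ t) (γ t)`;
* if `m ≥ 16` and `k ≤ m ^ 2 / 400` then the ranks of all the `k * m ^ 2` matrices `A κ s i j` add
  up to at least `m ^ 3 / (32 log m)`, `log` the logarithm to base two rounded down. -/
theorem result (m k : ℕ) (F : MvPolynomial (Fin k) ℂ) (n : ℕ → Fin k → ℕ)
    (A0 : ∀ κ s, Matrix (Fin (n κ s)) (Fin (n κ s)) ℂ)
    (A : ∀ κ s, Fin m → Fin m → Matrix (Fin (n κ s)) (Fin (n κ s)) ℂ)
    (hlim : ∀ x : Matrix (Fin m) (Fin m) ℂ, Filter.Tendsto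
      (fun κ => MvPolynomial.eval (fun s => (A0 κ s + ∑ i, ∑ j, x i j • A κ s i j).det) F)
      Filter.atTop (nhds x.permanent)) :
    ∀ᶠ κ in Filter.atTop,
      (∀ f : ℕ, 4 * 2 ^ f + 2 * f ≤ m + 3 → ∀ ρ γ : Fin (2 * f) → Fin m,
        Function.Injective ρ → Function.Injective γ →
          4 ^ f ≤ k + ∑ s, (∑ t, (A κ s (ρ t) (γ t)).rank) ^ 2) ∧
      (16 ≤ m → 400 * k ≤ m ^ 2 →
        m ^ 3 ≤ 32 * Nat.log 2 m * ∑ s, ∑ i, ∑ j, (A κ s i j).rank) := by
  have h1 : ∀ f : ℕ, ∀ ρ γ : Fin (2 * f) → Fin m, ∀ᶠ κ in Filter.atTop,
      (4 * 2 ^ f + 2 * f ≤ m + 3 → Function.Injective ρ → Function.Injective γ →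
        4 ^ f ≤ k + ∑ s, (∑ t, (A κ s (ρ t) (γ t)).rank) ^ 2) := by
    intro f ρ γ
    by_cases hc : 4 * 2 ^ f + 2 * f ≤ m + 3 ∧ Function.Injective ρ ∧ Function.Injective γ
    · obtain ⟨hfm, hρ, hγ⟩ := hc
      let e : Fin f ⊕ Fin f ≃ Fin (2 * f) :=
        (finSumFinEquiv (m := f) (n := f)).trans (finCongr (two_mul f).symm)
      filter_upwards [Pool.Agent.T9h99.poly_bound hfm F n A0 A hlim (ρ ∘ e) (γ ∘ e)
        (hρ.comp e.injective) (hγ.comp e.injective)] with κ hκ _ _ _
      have he : ∀ s, ∑ t, (A κ s (ρ t) (γ t)).rank =
          ∑ t, (A κ s ((ρ ∘ e) t) ((γ ∘ e) t)).rank := fun s =>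
        (Equiv.sum_comp e (fun t => (A κ s (ρ t) (γ t)).rank)).symm
      simp only [he]
      exact hκ
    · exact Filter.Eventually.of_forall fun κ a b c => absurd ⟨a, b, c⟩ hc
  have h2 : ∀ᶠ κ in Filter.atTop, ∀ f : Fin (m + 4), ∀ ρ γ : Fin (2 * (f : ℕ)) → Fin m,
      (4 * 2 ^ (f : ℕ) + 2 * (f : ℕ) ≤ m + 3 →
        Function.Injective ρ → Function.Injective γ →
          4 ^ (f : ℕ) ≤ k + ∑ s, (∑ t, (A κ s (ρ t) (γ t)).rank) ^ 2) := by
    rw [Filter.eventually_all]
    intro f
    rw [Filter.eventually_all]
    intro ρ
    rw [Filter.eventually_all]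
    intro γ
    exact h1 f ρ γ
  filter_upwards [h2] with κ hκ
  have hκ' : ∀ f : ℕ, 4 * 2 ^ f + 2 * f ≤ m + 3 → ∀ ρ γ : Fin (2 * f) → Fin m,
      Function.Injective ρ → Function.Injective γ →
        4 ^ f ≤ k + ∑ s, (∑ t, (A κ s (ρ t) (γ t)).rank) ^ 2 := by
    intro f hfm ρ γ hρ hγ
    have hlt : f < m + 4 := by omega
    exact hκ ⟨f, hlt⟩ ρ γ hfm hρ hγ
  exact ⟨hκ', fun hm hk =>
    Pool.Agent.T9h99.total_of_local_k hm hk (fun s i j => (A κ s i j).rank) hκ'⟩

end Pool.Agent.T9h99.DeterminantPolynomials
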