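import Pool.Agent.T9h99.Poly
import Pool.Agent.T9h99.DetFormula

/-! Formulas whose leaves are determinants of affine matrices. -/

namespace Pool.Agent.T9h99

set_option linter.unusedSectionVars false

open MvPolynomial

section fpar
variable {ι : Type} [Fintype ι]

/-- `S` is covered by finitely many Zariski closures of images of polynomial maps in at most
`N` parameters. -/
def FPar (N : ℕ) (S : Set (ι → ℂ)) : Prop :=
  ∃ (J : Type) (_ : Finite J) (σ : J → Type) (_ : ∀ j, Fintype (σ j))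
    (Φ : ∀ j, ι → MvPolynomial (σ j) ℂ), (∀ j, Fintype.card (σ j) ≤ N) ∧ S ⊆ ⋃ j, ZCl (Φ j)

theorem FPar.mono {N N' : ℕ} {S S' : Set (ι → ℂ)} (h : FPar N S) (hN : N ≤ N') (hS : S' ⊆ S) :
    FPar N' S' := by
  obtain ⟨J, hJ, σ, hσ, Φ, hc, hSC⟩ := h
  exact ⟨J, hJ, σ, hσ, Φ, fun j => (hc j).trans hN, hS.trans hSC⟩

theorem FPar.iUnion {N : ℕ} {J : Type} [Finite J] {S : J → Set (ι → ℂ)}
    (h : ∀ j, FPar N (S j)) : FPar N (⋃ j, S j) := by
  choose J' hJ' σ hσ Φ hc hSC using h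
  refine ⟨Σ j, J' j, inferInstance, fun p => σ p.1 p.2, fun p => hσ p.1 p.2,
    fun p => Φ p.1 p.2, fun p => hc p.1 p.2, ?_⟩
  intro g hg
  obtain ⟨j, hj⟩ := Set.mem_iUnion.1 hg
  obtain ⟨j', hj'⟩ := Set.mem_iUnion.1 (hSC j hj)
  exact Set.mem_iUnion.2 ⟨⟨j, j'⟩, hj'⟩

theorem FPar.union {N : ℕ} {S S' : Set (ι → ℂ)} (h : FPar N S) (h' : FPar N S') :
    FPar N (S ∪ S') := by
  have := FPar.iUnion (J := Bool) (S := fun b => if b then S else S') (N := N) (by
    intro b; cases b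
    · simpa using h'
    · simpa using h)
  apply this.mono le_rfl
  rintro g (hg | hg)
  · exact Set.mem_iUnion.2 ⟨true, by simpa using hg⟩
  · exact Set.mem_iUnion.2 ⟨false, by simpa using hg⟩

/-- a closed proper subset containing `S` -/
theorem FPar.closure_ne {N : ℕ} {S : Set (ι → ℂ)} (h : FPar N S) (hN : N < Fintype.card ι) :
    ∃ T : Set (ι → ℂ), IsClosed T ∧ S ⊆ T ∧ ∃ g, g ∉ T := by
  obtain ⟨J, hJ, σ, hσ, Φ, hc, hSC⟩ := h
  refine ⟨_, isClosed_iUnion_of_finite fun j => isClosed_ZCl (Φ j), hSC, ?_⟩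
  have hQ : ∀ j, ∃ Q : MvPolynomial ι ℂ, Q ≠ 0 ∧ ∀ g ∈ ZCl (Φ j), eval g Q = 0 := by
    intro j
    by_contra hcon
    push Not at hcon
    have : Nonempty ι := by
      rw [← Fintype.card_pos_iff]; omega
    have h2 := card_le_of_univ (Φ j) (fun g Q hQ => by
      by_cases hQ0 : Q = 0
      · rw [hQ0, map_zero]
      · obtain ⟨g', hg', hne⟩ := hcon Q hQ0
        exact absurd (hg' Q hQ) hne)
    have := hc j
    omega
  choose Q hQ0 hQv using hQ
  have : Fintype J := Fintype.ofFinite J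
  let P : MvPolynomial ι ℂ := ∏ j, Q j
  have hP : P ≠ 0 := by
    rw [Finset.prod_ne_zero_iff]
    intro j _
    exact hQ0 j
  by_contra hcon
  push Not at hcon
  apply hP
  apply MvPolynomial.funext
  intro g
  rw [map_zero, map_prod]
  obtain ⟨j, hj⟩ := Set.mem_iUnion.1 (hcon g)
  exact Finset.prod_eq_zero (Finset.mem_univ j) (hQv j g hj)

/-- evaluation of a substituted polynomial -/
theorem eval_bind {ι' σ : Type} (L : ι' → MvPolynomial σ ℂ) (Q : MvPolynomial ι' ℂ) (g : σ → ℂ) :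
    eval g (bind₁ L Q) = eval (fun b => eval g (L b)) Q := by
  have hcomp : (eval g).comp ((bind₁ L : MvPolynomial ι' ℂ →ₐ[ℂ] MvPolynomial σ ℂ) :
      MvPolynomial ι' ℂ →+* MvPolynomial σ ℂ) = eval (fun b => eval g (L b)) := by
    apply MvPolynomial.ringHom_ext
    · intro r; simp
    · intro i; simp
  rw [← hcomp]
  rfl

theorem ZCl_op {σ1 σ2 σ' : Type} (Φ1 : ι → MvPolynomial σ1 ℂ) (Φ2 : ι → MvPolynomial σ2 ℂ)
    (Φ' : ι → MvPolynomial σ' ℂ) (op : ℂ → ℂ → ℂ)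
    (P1 : ℂ → ι → MvPolynomial ι ℂ) (hP1 : ∀ c g b, eval g (P1 c b) = op (g b) c)
    (P2 : ℂ → ι → MvPolynomial ι ℂ) (hP2 : ∀ c g b, eval g (P2 c b) = op c (g b))
    (hΦ : ∀ z1 z2, ∃ z', ∀ b, eval z' (Φ' b) = op (eval z1 (Φ1 b)) (eval z2 (Φ2 b)))
    {g1 g2 : ι → ℂ} (h1 : g1 ∈ ZCl Φ1) (h2 : g2 ∈ ZCl Φ2) :
    (fun b => op (g1 b) (g2 b)) ∈ ZCl Φ' := by
  intro Q hQ
  have step1 : ∀ z2 : σ2 → ℂ, eval (fun b => op (g1 b) (eval z2 (Φ2 b))) Q = 0 := by
    intro z2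
    have := h1 (bind₁ (fun b => P1 (eval z2 (Φ2 b)) b) Q) (by
      intro z1
      rw [eval_bind]
      simp only [hP1]
      obtain ⟨z', hz'⟩ := hΦ z1 z2
      have h3 := hQ z'
      simp only [hz'] at h3
      exact h3)
    rw [eval_bind] at this
    simp only [hP1] at this
    exact this
  have := h2 (bind₁ (fun b => P2 (g1 b) b) Q) (by
    intro z2
    rw [eval_bind]
    simp only [hP2]
    exact step1 z2)
  rw [eval_bind] at this
  simp only [hP2] at this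
  exact this

theorem ZCl_add {σ1 σ2 : Type} (Φ1 : ι → MvPolynomial σ1 ℂ) (Φ2 : ι → MvPolynomial σ2 ℂ)
    {g1 g2 : ι → ℂ} (h1 : g1 ∈ ZCl Φ1) (h2 : g2 ∈ ZCl Φ2) :
    (fun b => g1 b + g2 b) ∈ ZCl (fun b => (rename Sum.inl (Φ1 b) : MvPolynomial (σ1 ⊕ σ2) ℂ) +
      rename Sum.inr (Φ2 b)) := by
  apply ZCl_op Φ1 Φ2 _ (fun u v => u + v) (fun c b => X b + C c) (by simp)
    (fun c b => C c + X b) (by simp) _ h1 h2
  intro z1 z2
  refine ⟨Sum.elim z1 z2, fun b => ?_⟩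
  rw [map_add, eval_rename, eval_rename]
  rfl

theorem ZCl_mul {σ1 σ2 : Type} (Φ1 : ι → MvPolynomial σ1 ℂ) (Φ2 : ι → MvPolynomial σ2 ℂ)
    {g1 g2 : ι → ℂ} (β : ℂ) (h1 : g1 ∈ ZCl Φ1) (h2 : g2 ∈ ZCl Φ2) :
    (fun b => g1 b * g2 b + β) ∈ ZCl (fun b =>
      (rename some ((rename Sum.inl (Φ1 b) : MvPolynomial (σ1 ⊕ σ2) ℂ) *
      rename Sum.inr (Φ2 b)) : MvPolynomial (Option (σ1 ⊕ σ2)) ℂ) + X none) := by
  apply ZCl_op Φ1 Φ2 _ (fun u v => u * v + β) (fun c b => X b * C c + C β) (by simp)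
    (fun c b => C c * X b + C β) (by simp) _ h1 h2
  intro z1 z2
  refine ⟨fun o => o.elim β (Sum.elim z1 z2), fun b => ?_⟩
  rw [map_add, eval_rename, map_mul, eval_rename, eval_rename, eval_X]
  rfl

theorem FPar.add {N1 N2 : ℕ} {S1 S2 : Set (ι → ℂ)} (h1 : FPar N1 S1) (h2 : FPar N2 S2) :
    FPar (N1 + N2) {g | ∃ g1 ∈ S1, ∃ g2 ∈ S2, g = fun b => g1 b + g2 b} := by
  obtain ⟨J1, hJ1, σ1, i1, Φ1, hc1, hS1⟩ := h1
  obtain ⟨J2, hJ2, σ2, i2, Φ2, hc2, hS2⟩ := h2
  refine ⟨J1 × J2, inferInstance, fun p => σ1 p.1 ⊕ σ2 p.2, fun p => inferInstance,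
    fun p b => rename Sum.inl (Φ1 p.1 b) + rename Sum.inr (Φ2 p.2 b), ?_, ?_⟩
  · rintro ⟨j1, j2⟩
    rw [Fintype.card_sum]
    exact Nat.add_le_add (hc1 j1) (hc2 j2)
  · rintro g ⟨g1, hg1, g2, hg2, rfl⟩
    obtain ⟨j1, hj1⟩ := Set.mem_iUnion.1 (hS1 hg1)
    obtain ⟨j2, hj2⟩ := Set.mem_iUnion.1 (hS2 hg2)
    exact Set.mem_iUnion.2 ⟨(j1, j2), ZCl_add _ _ hj1 hj2⟩

theorem FPar.mul {N1 N2 : ℕ} {S1 S2 : Set (ι → ℂ)} (h1 : FPar N1 S1) (h2 : FPar N2 S2) :
    FPar (N1 + N2 + 1) {g | ∃ g1 ∈ S1, ∃ g2 ∈ S2, ∃ β : ℂ, g = fun b => g1 b * g2 b + β} := by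
  obtain ⟨J1, hJ1, σ1, i1, Φ1, hc1, hS1⟩ := h1
  obtain ⟨J2, hJ2, σ2, i2, Φ2, hc2, hS2⟩ := h2
  refine ⟨J1 × J2, inferInstance, fun p => Option (σ1 p.1 ⊕ σ2 p.2), fun p => inferInstance,
    fun p b => rename some (rename Sum.inl (Φ1 p.1 b) * rename Sum.inr (Φ2 p.2 b)) + X none,
    ?_, ?_⟩
  · rintro ⟨j1, j2⟩
    rw [Fintype.card_option, Fintype.card_sum]
    exact Nat.succ_le_succ (Nat.add_le_add (hc1 j1) (hc2 j2))
  · rintro g ⟨g1, hg1, g2, hg2, β, rfl⟩
    obtain ⟨j1, hj1⟩ := Set.mem_iUnion.1 (hS1 hg1)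
    obtain ⟨j2, hj2⟩ := Set.mem_iUnion.1 (hS2 hg2)
    exact Set.mem_iUnion.2 ⟨(j1, j2), ZCl_mul _ _ β hj1 hj2⟩

/-- constant vectors -/
theorem FPar.consts : FPar 1 {g : ι → ℂ | ∃ c : ℂ, g = fun _ => c} := by
  refine ⟨Unit, inferInstance, fun _ => Unit, fun _ => inferInstance, fun _ _ => X (), by simp, ?_⟩
  rintro g ⟨c, rfl⟩
  refine Set.mem_iUnion.2 ⟨(), ?_⟩
  have := mem_ZCl_of_eval (fun _ : ι => (X () : MvPolynomial Unit ℂ)) (fun _ => c)
  simpa using this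

end fpar

section leaf
variable {τ : Type} [Fintype τ] [DecidableEq τ] {ι : Type} [Fintype ι]

theorem mem_ZCl_single {n : ℕ}
    (M : Matrix (Fin n) (Fin n) ℂ) (A : τ → Matrix (Fin n) (Fin n) ℂ)
    (d : ι → τ → ℂ) (ν : τ → ℕ) (hν : ν = fun t => (A t).rank) :
    (fun b => (M + ∑ t, d b t • A t).det) ∈ ZCl (Φr ν d) := by
  have hinv : ∀ M' : Matrix (Fin n) (Fin n) ℂ, M'.det ≠ 0 →
      (fun b => (M' + ∑ t, d b t • A t).det) ∈ ZCl (Φr ν d) := by
    intro M' hM'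
    obtain ⟨z, hz⟩ := det_param M' hM' A d ν hν
    have h2 : (fun b => (M' + ∑ t, d b t • A t).det) = fun b => eval z (Φr ν d b) := by
      funext b
      exact hz b
    rw [h2]
    exact mem_ZCl_of_eval _ _
  have hlim : Filter.Tendsto (fun ε : ℂ => fun b : ι =>
      ((M + ε • (1 : Matrix (Fin n) (Fin n) ℂ)) + ∑ t, d b t • A t).det)
      (nhdsWithin 0 {0}ᶜ) (nhds (fun b => (M + ∑ t, d b t • A t).det)) := by
    apply Filter.Tendsto.mono_left _ nhdsWithin_le_nhds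
    rw [tendsto_pi_nhds]
    intro b
    have hc : Continuous (fun ε : ℂ => ((M + ε • (1 : Matrix (Fin n) (Fin n) ℂ)) +
        ∑ t, d b t • A t).det) := by
      apply Continuous.matrix_det
      fun_prop
    have := hc.tendsto 0
    simpa using this
  exact (isClosed_ZCl _).mem_of_tendsto hlim ((eventually_det_ne M).mono fun ε hε => hinv _ hε)

/-- the family of a determinantal leaf, closed under affine maps -/
theorem mem_ZCl_leaf {n : ℕ}
    (M : Matrix (Fin n) (Fin n) ℂ) (A : τ → Matrix (Fin n) (Fin n) ℂ)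
    (d : ι → τ → ℂ) (ν : τ → ℕ) (hν : ν = fun t => (A t).rank) (α β : ℂ) :
    (fun b => α * (M + ∑ t, d b t • A t).det + β) ∈
      ZCl (fun b => (rename some (Φr ν d b) : MvPolynomial (Option _) ℂ) + X none) := by
  intro Q hQ
  have h1 := mem_ZCl_single M A d ν hν (bind₁ (fun b => C α * X b + C β) Q) (by
    intro z
    rw [eval_bind]
    have := hQ (fun o => o.elim β (fun o' => o'.elim (α * z none) (fun p => z (some p))))
    simp only [map_add, eval_rename, eval_X, Option.elim_none] at this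
    rw [← this]
    congr 2
    funext b
    rw [map_add, map_mul, eval_C, eval_C, eval_X]
    congr 1
    rw [eval_Φr, eval_Φr]
    simp only [Function.comp, Option.elim_some, Option.elim_none]
    ring)
  rw [eval_bind] at h1
  simpa using h1

end leaf

section main
variable {τ : Type} [Fintype τ] [DecidableEq τ] {ι : Type} [Fintype ι] {m : ℕ}

/-- values of a formula at the given points -/
def vals (ρ γ : τ → Fin m) (d : ι → τ → ℂ) (φ : DetFormula m) (x0 : Matrix (Fin m) (Fin m) ℂ) :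
    ι → ℂ := fun b => φ.eval (x0 + ∑ t, Matrix.single (ρ t) (γ t) (d b t))

theorem rank_zero_iff {n : ℕ} {A : Matrix (Fin n) (Fin n) ℂ} (h : A.rank = 0) : A = 0 := by
  obtain ⟨U, V, hUV⟩ := exists_factor A
  rw [hUV]
  ext i j
  rw [Matrix.mul_apply]
  have : IsEmpty (Fin A.rank) := by rw [h]; infer_instance
  simp

theorem vals_const (ρ γ : τ → Fin m) (d : ι → τ → ℂ) (φ : DetFormula m)
    (h : φ.cost ρ γ = 0) (x0 : Matrix (Fin m) (Fin m) ℂ) :
    ∃ c, vals ρ γ d φ x0 = fun _ => c := by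
  induction φ with
  | const c => exact ⟨c, rfl⟩
  | det n A0 A =>
    refine ⟨(A0 + ∑ i, ∑ j, x0 i j • A i j).det, ?_⟩
    funext b
    simp only [vals, DetFormula.eval]
    rw [lin_sum]
    have h1 : ∑ t, d b t • A (ρ t) (γ t) = 0 := by
      apply Finset.sum_eq_zero
      intro t _
      have h2 : ∑ t, (A (ρ t) (γ t)).rank = 0 := by
        simpa [DetFormula.cost] using h
      have h3 := (Finset.sum_eq_zero_iff.1 h2) t (Finset.mem_univ t)
      rw [rank_zero_iff h3, smul_zero]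
    rw [h1, add_zero]
  | add a b iha ihb =>
    simp only [DetFormula.cost] at h
    obtain ⟨c1, h1⟩ := iha (by omega)
    obtain ⟨c2, h2⟩ := ihb (by omega)
    refine ⟨c1 + c2, ?_⟩
    funext j
    have h1 := congrFun h1 j
    have h2 := congrFun h2 j
    simp only [vals, DetFormula.eval] at h1 h2 ⊢
    rw [h1, h2]
  | mul a b iha ihb =>
    simp only [DetFormula.cost] at h
    obtain ⟨c1, h1⟩ := iha (by omega)
    obtain ⟨c2, h2⟩ := ihb (by omega)
    refine ⟨c1 * c2, ?_⟩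
    funext j
    have h1 := congrFun h1 j
    have h2 := congrFun h2 j
    simp only [vals, DetFormula.eval] at h1 h2 ⊢
    rw [h1, h2]

/-- affine images of the value vectors of formulas of cost `c` -/
def UU (ρ γ : τ → Fin m) (d : ι → τ → ℂ) (c : ℕ) : Set (ι → ℂ) :=
  {g | ∃ φ : DetFormula m, φ.cost ρ γ = c ∧ ∃ x0 α β, g = fun b => α * vals ρ γ d φ x0 b + β}

theorem FPar.empty (N : ℕ) : FPar N (∅ : Set (ι → ℂ)) :=
  ⟨Empty, inferInstance, fun _ => Empty, fun _ => inferInstance, fun j => j.elim,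
    fun j => j.elim, by simp⟩

theorem UU_zero (ρ γ : τ → Fin m) (d : ι → τ → ℂ) : FPar 1 (UU ρ γ d 0) := by
  apply FPar.consts.mono le_rfl
  rintro g ⟨φ, hφ, x0, α, β, rfl⟩
  obtain ⟨c, hc⟩ := vals_const ρ γ d φ hφ x0
  exact ⟨α * c + β, by rw [hc]⟩

/-- leaf family -/
def LF (d : ι → τ → ℂ) (ν : τ → ℕ) : Set (ι → ℂ) :=
  {g | ∃ (n : ℕ) (M : Matrix (Fin n) (Fin n) ℂ) (A : τ → Matrix (Fin n) (Fin n) ℂ) (α β : ℂ),
    (ν = fun t => (A t).rank) ∧ g = fun b => α * (M + ∑ t, d b t • A t).det + β}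

theorem FPar.leaf (d : ι → τ → ℂ) (ν : τ → ℕ) : FPar ((∑ t, ν t) ^ 2 + 2) (LF d ν) := by
  refine ⟨Unit, inferInstance, fun _ => Option (Option ((Σ t, Fin (ν t)) × (Σ t, Fin (ν t)))),
    fun _ => inferInstance, fun _ b => rename some (Φr ν d b) + X none, ?_, ?_⟩
  · intro _
    rw [Fintype.card_option, card_param]
  · rintro g ⟨n, M, A, α, β, hν, rfl⟩
    exact Set.mem_iUnion.2 ⟨(), mem_ZCl_leaf M A d ν hν α β⟩

theorem UU_pos (ρ γ : τ → Fin m) (d : ι → τ → ℂ) (c : ℕ) (hc : 1 ≤ c) :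
    FPar (4 * c - 1) (UU ρ γ d c) := by
  induction c using Nat.strong_induction_on with
  | _ c ih =>
  have hL : FPar (4 * c - 1) (⋃ ν : τ → Fin (c + 1),
      if (∑ t, (ν t : ℕ)) ^ 2 = c then LF d (fun t => (ν t : ℕ)) else ∅) := by
    apply FPar.iUnion
    intro ν
    by_cases h : (∑ t, (ν t : ℕ)) ^ 2 = c
    · rw [if_pos h]
      apply (FPar.leaf d (fun t => (ν t : ℕ))).mono _ le_rfl
      omega
    · rw [if_neg h]
      exact FPar.empty _
  have hA : FPar (4 * c - 1) (⋃ j : Fin c, {g | 1 ≤ (j : ℕ) ∧ ∃ g1 ∈ UU ρ γ d j,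
      ∃ g2 ∈ UU ρ γ d (c - j), g = fun b => g1 b + g2 b}) := by
    apply FPar.iUnion
    intro j
    by_cases h : 1 ≤ (j : ℕ)
    · have hj := j.2
      apply ((ih j hj h).add (ih (c - j) (by omega) (by omega))).mono (by omega)
      rintro g ⟨_, hg⟩
      exact hg
    · apply (FPar.empty _).mono le_rfl
      rintro g ⟨h1, _⟩
      exact absurd h1 h
  have hM : FPar (4 * c - 1) (⋃ j : Fin c, {g | 1 ≤ (j : ℕ) ∧ ∃ g1 ∈ UU ρ γ d j,
      ∃ g2 ∈ UU ρ γ d (c - j), ∃ β : ℂ, g = fun b => g1 b * g2 b + β}) := by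
    apply FPar.iUnion
    intro j
    by_cases h : 1 ≤ (j : ℕ)
    · have hj := j.2
      apply ((ih j hj h).mul (ih (c - j) (by omega) (by omega))).mono (by omega)
      rintro g ⟨_, hg⟩
      exact hg
    · apply (FPar.empty _).mono le_rfl
      rintro g ⟨h1, _⟩
      exact absurd h1 h
  apply ((hL.union hA).union hM).mono le_rfl
  rintro g ⟨φ, hφ, x0, α, β, rfl⟩
  induction φ generalizing α β with
  | const c' =>
    simp only [DetFormula.cost] at hφ
    omega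
  | det n A0 A =>
    left; left
    simp only [DetFormula.cost] at hφ
    have hr : ∀ t, (A (ρ t) (γ t)).rank < c + 1 := by
      intro t
      have h1 : (A (ρ t) (γ t)).rank ≤ ∑ t, (A (ρ t) (γ t)).rank :=
        Finset.single_le_sum (f := fun t => (A (ρ t) (γ t)).rank)
          (fun _ _ => Nat.zero_le _) (Finset.mem_univ t)
      have h2 : ∑ t, (A (ρ t) (γ t)).rank ≤ (∑ t, (A (ρ t) (γ t)).rank) ^ 2 :=
        Nat.le_self_pow (by norm_num) _
      omega
    refine Set.mem_iUnion.2 ⟨fun t => ⟨_, hr t⟩, ?_⟩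
    rw [if_pos hφ]
    refine ⟨n, A0 + ∑ i, ∑ j, x0 i j • A i j, fun t => A (ρ t) (γ t), α, β, rfl, ?_⟩
    funext b
    simp only [vals, DetFormula.eval]
    rw [lin_sum, add_assoc]
  | add a b iha ihb =>
    simp only [DetFormula.cost] at hφ
    by_cases ha : a.cost ρ γ = 0
    · obtain ⟨c1, hc1⟩ := vals_const ρ γ d a ha x0
      have := ihb (by omega) α (α * c1 + β)
      convert this using 1
      funext j
      have h1 := congrFun hc1 j
      simp only [vals, DetFormula.eval] at h1 ⊢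
      rw [h1]; ring
    · by_cases hb : b.cost ρ γ = 0
      · obtain ⟨c1, hc1⟩ := vals_const ρ γ d b hb x0
        have := iha (by omega) α (α * c1 + β)
        convert this using 1
        funext j
        have h1 := congrFun hc1 j
        simp only [vals, DetFormula.eval] at h1 ⊢
        rw [h1]; ring
      · left; right
        refine Set.mem_iUnion.2 ⟨⟨a.cost ρ γ, by omega⟩, ?_⟩
        refine ⟨by simp only; omega, (fun j => α * vals ρ γ d a x0 j + β), ⟨a, rfl, x0, α, β, rfl⟩,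
          (fun j => α * vals ρ γ d b x0 j + 0), ⟨b, by simp only; omega, x0, α, 0, rfl⟩, ?_⟩
        funext j
        simp only [vals, DetFormula.eval]
        ring
  | mul a b iha ihb =>
    simp only [DetFormula.cost] at hφ
    by_cases ha : a.cost ρ γ = 0
    · obtain ⟨c1, hc1⟩ := vals_const ρ γ d a ha x0
      have := ihb (by omega) (α * c1) β
      convert this using 1
      funext j
      have h1 := congrFun hc1 j
      simp only [vals, DetFormula.eval] at h1 ⊢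
      rw [h1]; ring
    · by_cases hb : b.cost ρ γ = 0
      · obtain ⟨c1, hc1⟩ := vals_const ρ γ d b hb x0
        have := iha (by omega) (α * c1) β
        convert this using 1
        funext j
        have h1 := congrFun hc1 j
        simp only [vals, DetFormula.eval] at h1 ⊢
        rw [h1]; ring
      · right
        refine Set.mem_iUnion.2 ⟨⟨a.cost ρ γ, by omega⟩, ?_⟩
        refine ⟨by simp only; omega, (fun j => α * vals ρ γ d a x0 j + 0), ⟨a, rfl, x0, α, 0, rfl⟩,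
          (fun j => 1 * vals ρ γ d b x0 j + 0), ⟨b, by simp only; omega, x0, 1, 0, rfl⟩, β, ?_⟩
        funext j
        simp only [vals, DetFormula.eval]
        ring

end main

theorem formula_bound {m f : ℕ} (hf : 1 ≤ f)
    (hm : 4 * 2 ^ f + 2 * f ≤ m + 3) (φ : ℕ → DetFormula m)
    (H : ∀ x : Matrix (Fin m) (Fin m) ℂ, Filter.Tendsto (fun κ => (φ κ).eval x)
      Filter.atTop (nhds x.permanent))
    (ρ γ : Fin f ⊕ Fin f → Fin m) (hρ : Function.Injective ρ) (hγ : Function.Injective γ) :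
    ∀ᶠ κ in Filter.atTop, 4 ^ f < 4 * (φ κ).cost ρ γ := by
  have h4 : 4 ≤ 4 ^ f := by
    calc 4 = 4 ^ 1 := rfl
      _ ≤ 4 ^ f := Nat.pow_le_pow_right (by norm_num) hf
  have main : ∀ c : Fin (4 ^ f), 4 * (c : ℕ) ≤ 4 ^ f → ∀ᶠ κ in Filter.atTop,
      (φ κ).cost ρ γ ≠ c := by
    intro c hc
    by_contra hcon
    rw [Filter.not_eventually] at hcon
    simp only [not_not] at hcon
    have hF : ∃ N, N < 4 ^ f ∧ FPar N (UU ρ γ (fun b t => (YY f b t : ℂ)) (c : ℕ)) := by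
      rcases Nat.eq_zero_or_pos (c : ℕ) with h0 | h0
      · rw [h0]
        exact ⟨1, by omega, UU_zero _ _ _⟩
      · exact ⟨4 * (c : ℕ) - 1, by omega, UU_pos _ _ _ _ h0⟩
    obtain ⟨N, hN, hF⟩ := hF
    rw [← card_index] at hN
    obtain ⟨T, hT, hsub, g, hg⟩ := hF.closure_ne hN
    apply hg
    obtain ⟨x0, hx0⟩ := key (K := ℂ) two_ne_zero hm ρ γ hρ hγ g
    have hG : Filter.Tendsto (fun κ => vals ρ γ (fun b t => (YY f b t : ℂ)) (φ κ) x0)
        Filter.atTop (nhds g) := by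
      rw [tendsto_pi_nhds]
      intro b
      rw [← hx0 b]
      exact H _
    apply hT.mem_of_frequently_of_tendsto _ hG
    apply hcon.mono
    intro κ hκ
    apply hsub
    exact ⟨φ κ, hκ, x0, 1, 0, by simp⟩
  have hall : ∀ᶠ κ in Filter.atTop, ∀ c : Fin (4 ^ f), 4 * (c : ℕ) ≤ 4 ^ f →
      (φ κ).cost ρ γ ≠ c := by
    rw [Filter.eventually_all]
    intro c
    by_cases hc : 4 * (c : ℕ) ≤ 4 ^ f
    · filter_upwards [main c hc] with κ hκ _
      exact hκ
    · exact Filter.Eventually.of_forall fun κ h => absurd h hc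
  filter_upwards [hall] with κ hκ
  by_contra hlt
  push Not at hlt
  exact hκ ⟨(φ κ).cost ρ γ, by omega⟩ hlt rfl

section total

theorem cost_equiv {m : ℕ} {τ τ' : Type} [Fintype τ] [Fintype τ'] (e : τ ≃ τ')
    (ρ γ : τ' → Fin m) (φ : DetFormula m) : φ.cost (ρ ∘ e) (γ ∘ e) = φ.cost ρ γ := by
  induction φ with
  | const c => rfl
  | det n A0 A =>
    simp only [DetFormula.cost]
    congr 1
    exact Equiv.sum_comp e (fun t => (A (ρ t) (γ t)).rank)
  | add a b iha ihb => simp only [DetFormula.cost, iha, ihb]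
  | mul a b iha ihb => simp only [DetFormula.cost, iha, ihb]

theorem leaf_window {m f : ℕ} [NeZero m] (hfm : 2 * f ≤ m) (r : Fin m → Fin m → ℕ) :
    ∑ i : Fin m, ∑ j : Fin m, (∑ t, r (Fin.castLE hfm t + i) (Fin.castLE hfm t + j)) ^ 2 ≤
      2 * f * (∑ p : Fin m × Fin m, r p.1 p.2) ^ 2 := by
  let s : Fin (2 * f) → Fin m := Fin.castLE hfm
  have hs : Function.Injective s := Fin.castLE_injective hfm
  have h1 : ∀ i j : Fin m, ∑ t, r (s t + i) (s t + j) ≤ ∑ p : Fin m × Fin m, r p.1 p.2 := by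
    intro i j
    have hinj : Function.Injective (fun t => (s t + i, s t + j)) := by
      intro a b hab
      exact hs (add_right_cancel (congrArg Prod.fst hab))
    calc ∑ t, r (s t + i) (s t + j)
        = ∑ p ∈ Finset.univ.image (fun t => (s t + i, s t + j)), r p.1 p.2 := by
          rw [Finset.sum_image (fun a _ b _ h => hinj h)]
      _ ≤ ∑ p : Fin m × Fin m, r p.1 p.2 :=
          Finset.sum_le_sum_of_subset (Finset.subset_univ _)
  have h2 : ∑ i : Fin m, ∑ j : Fin m, ∑ t, r (s t + i) (s t + j) =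
      2 * f * ∑ p : Fin m × Fin m, r p.1 p.2 := by
    have h3 : ∀ t, ∑ i : Fin m, ∑ j : Fin m, r (s t + i) (s t + j) =
        ∑ p : Fin m × Fin m, r p.1 p.2 := by
      intro t
      rw [Fintype.sum_prod_type]
      refine (Equiv.sum_comp (Equiv.addLeft (s t)) (fun i => ∑ j : Fin m, r i (s t + j))).trans ?_
      refine Finset.sum_congr rfl fun i _ => ?_
      exact Equiv.sum_comp (Equiv.addLeft (s t)) (fun j => r i j)
    calc ∑ i : Fin m, ∑ j : Fin m, ∑ t, r (s t + i) (s t + j)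
        = ∑ i : Fin m, ∑ t, ∑ j : Fin m, r (s t + i) (s t + j) :=
          Finset.sum_congr rfl fun i _ => Finset.sum_comm
      _ = ∑ t, ∑ i : Fin m, ∑ j : Fin m, r (s t + i) (s t + j) := Finset.sum_comm
      _ = ∑ _t : Fin (2 * f), ∑ p : Fin m × Fin m, r p.1 p.2 :=
          Finset.sum_congr rfl fun t _ => h3 t
      _ = 2 * f * ∑ p : Fin m × Fin m, r p.1 p.2 := by simp
  calc ∑ i : Fin m, ∑ j : Fin m, (∑ t, r (s t + i) (s t + j)) ^ 2
      ≤ ∑ i : Fin m, ∑ j : Fin m, (∑ t, r (s t + i) (s t + j)) *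
          ∑ p : Fin m × Fin m, r p.1 p.2 := by
        refine Finset.sum_le_sum fun i _ => Finset.sum_le_sum fun j _ => ?_
        rw [sq]
        exact Nat.mul_le_mul_left _ (h1 i j)
    _ = (∑ i : Fin m, ∑ j : Fin m, ∑ t, r (s t + i) (s t + j)) *
          ∑ p : Fin m × Fin m, r p.1 p.2 := by
        rw [Finset.sum_mul]
        refine Finset.sum_congr rfl fun i _ => ?_
        rw [Finset.sum_mul]
    _ = 2 * f * (∑ p : Fin m × Fin m, r p.1 p.2) ^ 2 := by rw [h2]; ring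

theorem cost_window {m f : ℕ} [NeZero m] (hfm : 2 * f ≤ m) (φ : DetFormula m) :
    ∑ i : Fin m, ∑ j : Fin m, φ.cost (fun t : Fin (2 * f) => Fin.castLE hfm t + i)
      (fun t => Fin.castLE hfm t + j) ≤
      2 * f * φ.cost (Prod.fst : Fin m × Fin m → Fin m) Prod.snd := by
  induction φ with
  | const c => simp [DetFormula.cost]
  | det n A0 A =>
    simp only [DetFormula.cost]
    exact leaf_window hfm (fun i j => (A i j).rank)
  | add a b iha ihb =>
    simp only [DetFormula.cost, Finset.sum_add_distrib, mul_add]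
    exact Nat.add_le_add iha ihb
  | mul a b iha ihb =>
    simp only [DetFormula.cost, Finset.sum_add_distrib, mul_add]
    exact Nat.add_le_add iha ihb

theorem sq_le_two_pow (f : ℕ) : f ^ 2 ≤ 2 * 2 ^ f := by
  induction f with
  | zero => simp
  | succ f ih =>
    rcases Nat.lt_or_ge f 3 with h | h
    · interval_cases f <;> norm_num
    · rw [pow_succ 2 f]
      nlinarith

theorem log_arith2 {m : ℕ} (hm : 16 ≤ m) :
    ∃ f, 1 ≤ f ∧ 4 * 2 ^ f + 2 * f ≤ m + 3 ∧ f * m ^ 2 ≤ 64 * Nat.log 2 m * 4 ^ f := by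
  have h4 : 4 ≤ Nat.log 2 m := by
    apply (Nat.le_log_iff_pow_le (by norm_num) (by omega)).2
    omega
  have hlow : 2 ^ Nat.log 2 m ≤ m := Nat.pow_log_le_self 2 (by omega)
  have hup : m < 2 ^ (Nat.log 2 m + 1) := Nat.lt_pow_succ_log_self (by norm_num) m
  obtain ⟨k, hk⟩ : ∃ k, Nat.log 2 m = k + 4 := ⟨Nat.log 2 m - 4, by omega⟩
  rw [hk] at hlow hup ⊢
  have h4f : ∀ f : ℕ, (2 ^ f) ^ 2 = 4 ^ f := by
    intro f
    rw [← pow_mul, mul_comm, pow_mul]; norm_num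
  by_cases hc : 4 * 2 ^ (k + 2) + 2 * (k + 2) ≤ m + 3
  · have h1 : m ≤ 8 * 2 ^ (k + 2) := by
      rw [show k + 4 + 1 = (k + 2) + 3 by ring, pow_add _ (k + 2) 3] at hup
      omega
    refine ⟨k + 2, by omega, hc, ?_⟩
    calc (k + 2) * m ^ 2 ≤ (k + 4) * (8 * 2 ^ (k + 2)) ^ 2 :=
          Nat.mul_le_mul (by omega) (Nat.pow_le_pow_left h1 2)
      _ = 64 * (k + 4) * (2 ^ (k + 2)) ^ 2 := by ring
      _ = 64 * (k + 4) * 4 ^ (k + 2) := by rw [h4f]
  · refine ⟨k + 1, by omega, ?_, ?_⟩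
    · have h5 : k < 2 ^ k := Nat.lt_two_pow_self
      rw [pow_add] at hlow ⊢
      omega
    · obtain ⟨f, hf⟩ : ∃ f, f = k + 1 := ⟨_, rfl⟩
      have h1 : m ≤ 8 * 2 ^ f + 2 * f := by
        rw [hf, pow_succ]
        rw [pow_add] at hc
        omega
      rw [← hf, show k + 4 = f + 3 by omega]
      have h2 := sq_le_two_pow f
      have h3 : f < 2 ^ f := Nat.lt_two_pow_self
      have h5 : f ^ 2 * 2 ^ f ≤ 2 * 4 ^ f := by
        calc f ^ 2 * 2 ^ f ≤ 2 * 2 ^ f * 2 ^ f := Nat.mul_le_mul_right _ h2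
          _ = 2 * (2 ^ f) ^ 2 := by ring
          _ = 2 * 4 ^ f := by rw [h4f]
      have h6 : f ^ 3 ≤ 2 * 4 ^ f := by
        calc f ^ 3 = f ^ 2 * f := by ring
          _ ≤ f ^ 2 * 2 ^ f := Nat.mul_le_mul_left _ h3.le
          _ ≤ 2 * 4 ^ f := h5
      calc f * m ^ 2 ≤ f * (8 * 2 ^ f + 2 * f) ^ 2 :=
            Nat.mul_le_mul_left _ (Nat.pow_le_pow_left h1 2)
        _ = 64 * f * (2 ^ f) ^ 2 + 32 * (f ^ 2 * 2 ^ f) + 4 * f ^ 3 := by ring
        _ = 64 * f * 4 ^ f + 32 * (f ^ 2 * 2 ^ f) + 4 * f ^ 3 := by rw [h4f]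
        _ ≤ 64 * f * 4 ^ f + 32 * (2 * 4 ^ f) + 4 * (2 * 4 ^ f) := by omega
        _ ≤ 64 * (f + 3) * 4 ^ f := by
            have : 64 * (f + 3) * 4 ^ f = 64 * f * 4 ^ f + 192 * 4 ^ f := by ring
            omega

theorem total_of_local_cost {m : ℕ} (hm : 16 ≤ m) (φ : DetFormula m)
    (h : ∀ f : ℕ, 1 ≤ f → 4 * 2 ^ f + 2 * f ≤ m + 3 → ∀ ρ γ : Fin (2 * f) → Fin m,
      Function.Injective ρ → Function.Injective γ → 4 ^ f < 4 * φ.cost ρ γ) :
    m ^ 4 ≤ 512 * Nat.log 2 m * φ.cost (Prod.fst : Fin m × Fin m → Fin m) Prod.snd := by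
  obtain ⟨f, hf1, hf2, hf3⟩ := log_arith2 hm
  have : NeZero m := ⟨by omega⟩
  have hfm : 2 * f ≤ m := by
    have : 1 ≤ 2 ^ f := Nat.one_le_two_pow
    omega
  have hs : Function.Injective (Fin.castLE hfm) := Fin.castLE_injective hfm
  have hw := cost_window hfm φ
  have hl : m ^ 2 * 4 ^ f ≤ 4 * ∑ i : Fin m, ∑ j : Fin m,
      φ.cost (fun t : Fin (2 * f) => Fin.castLE hfm t + i) (fun t => Fin.castLE hfm t + j) := by
    rw [Finset.mul_sum]
    calc m ^ 2 * 4 ^ f = ∑ _i : Fin m, ∑ _j : Fin m, 4 ^ f := by simp; ring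
      _ ≤ _ := Finset.sum_le_sum fun i _ => by
        rw [Finset.mul_sum]
        refine Finset.sum_le_sum fun j _ => ?_
        apply (h f hf1 hf2 _ _ _ _).le
        · intro a b hab
          exact hs (add_right_cancel hab)
        · intro a b hab
          exact hs (add_right_cancel hab)
  apply Nat.le_of_mul_le_mul_left (c := f) _ hf1
  set R := φ.cost (Prod.fst : Fin m × Fin m → Fin m) Prod.snd
  calc f * m ^ 4 = (f * m ^ 2) * m ^ 2 := by ring
    _ ≤ (64 * Nat.log 2 m * 4 ^ f) * m ^ 2 := Nat.mul_le_mul_right _ hf3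
    _ = 64 * Nat.log 2 m * (m ^ 2 * 4 ^ f) := by ring
    _ ≤ 64 * Nat.log 2 m * (4 * (2 * f * R)) :=
        Nat.mul_le_mul_left _ (hl.trans (Nat.mul_le_mul_left _ hw))
    _ = f * (512 * Nat.log 2 m * R) := by ring

end total

end Pool.Agent.T9h99
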