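import Pool.Agent.T9h99.Net

/-! The two-sided network and its embedding into the `m × m` permanent. -/

namespace Pool.Agent.T9h99

set_option linter.unusedSectionVars false

open Multiset

abbrev G := ((ℕ ⊕ ℕ) ⊕ (ℕ ⊕ ℕ)) ⊕ ℕ

def φ1 (a : ℕ ⊕ ℕ) : G := .inl (.inl a)
def φ2 (a : ℕ ⊕ ℕ) : G := .inl (.inr a)

variable {K : Type*} [Field K]

/-- the two-sided network with padding. -/
def BM (f : ℕ) (y1 y2 : ℕ → K) (w : ℕ → ℕ → K) : G → G → K
  | .inl (.inl a), .inl (.inl b) => NA y1 a b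
  | .inl (.inl (.inl v)), .inl (.inr (.inl v')) => if v ∈ Lev f ∧ v' ∈ Lev f then w v v' else 0
  | .inl (.inr a), .inl (.inr b) => NA y2 b a
  | .inr i, .inr j => if i = j then 1 else 0
  | _, _ => 0

section basics
variable {α : Type*} [DecidableEq α]

theorem rowsN_add (φ : ℕ ⊕ ℕ → α) (k : ℕ) (R : Multiset α) :
    rowsN φ k R = rowsN φ k 0 + R := by
  induction k generalizing R with
  | zero => simp [rowsN]
  | succ k ih =>
    rw [rowsN, ih, rowsN, ih (φ (.inr k) ::ₘ ((Lev (k + 1)).val.map (fun v => φ (.inl v)) + 0))]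
    simp [add_assoc]

theorem colsN_add (φ : ℕ ⊕ ℕ → α) (k : ℕ) (R : Multiset α) :
    colsN φ k R = colsN φ k 0 + R := by
  induction k generalizing R with
  | zero => simp [colsN]
  | succ k ih =>
    rw [colsN, ih, colsN, ih (φ (.inr k) ::ₘ ((Lev (k + 1)).val.map (fun v => φ (.inl v)) + 0))]
    simp [add_assoc]

theorem mem_rowsN (φ : ℕ ⊕ ℕ → α) (k : ℕ) (R : Multiset α) (x : α) :
    x ∈ rowsN φ k R ↔ x ∈ R ∨ (∃ v, 1 ≤ v ∧ v < 2 ^ (k + 1) ∧ x = φ (.inl v)) ∨
      ∃ j, j < k ∧ x = φ (.inr j) := by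
  induction k generalizing R with
  | zero =>
    rw [rowsN, Multiset.mem_cons]
    constructor
    · rintro (rfl | h)
      · exact Or.inr (Or.inl ⟨1, le_refl _, by norm_num, rfl⟩)
      · exact Or.inl h
    · rintro (h | ⟨v, h1, h2, rfl⟩ | ⟨j, h1, _⟩)
      · exact Or.inr h
      · left
        have : v = 1 := by omega
        rw [this]
      · omega
  | succ k ih =>
    rw [rowsN, ih, Multiset.mem_cons, Multiset.mem_add, Multiset.mem_map]
    have hpow : 2 ^ (k + 1 + 1) = 2 * 2 ^ (k + 1) := by ring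
    constructor
    · rintro ((rfl | ⟨v, hv, rfl⟩ | h) | ⟨v, h1, h2, rfl⟩ | ⟨j, h1, rfl⟩)
      · exact Or.inr (Or.inr ⟨k, by omega, rfl⟩)
      · have hv := mem_Lev.1 hv
        exact Or.inr (Or.inl ⟨v, by have := Nat.one_le_two_pow (n := k + 1); omega, hv.2, rfl⟩)
      · exact Or.inl h
      · exact Or.inr (Or.inl ⟨v, h1, by omega, rfl⟩)
      · exact Or.inr (Or.inr ⟨j, by omega, rfl⟩)
    · rintro (h | ⟨v, h1, h2, rfl⟩ | ⟨j, h1, rfl⟩)
      · exact Or.inl (Or.inr (Or.inr h))
      · by_cases hv : v < 2 ^ (k + 1)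
        · exact Or.inr (Or.inl ⟨v, h1, hv, rfl⟩)
        · exact Or.inl (Or.inr (Or.inl ⟨v, mem_Lev.2 ⟨by omega, by omega⟩, rfl⟩))
      · by_cases hj : j < k
        · exact Or.inr (Or.inr ⟨j, hj, rfl⟩)
        · have : j = k := by omega
          rw [this]
          exact Or.inl (Or.inl rfl)

theorem mem_colsN (φ : ℕ ⊕ ℕ → α) (k : ℕ) (R : Multiset α) (x : α) :
    x ∈ colsN φ k R ↔ x ∈ R ∨ (∃ v, 2 ≤ v ∧ v < 2 ^ (k + 1) ∧ x = φ (.inl v)) ∨
      ∃ j, j < k ∧ x = φ (.inr j) := by
  induction k generalizing R with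
  | zero =>
    rw [colsN]
    constructor
    · intro h
      exact Or.inl h
    · rintro (h | ⟨v, h1, h2, rfl⟩ | ⟨j, h1, _⟩)
      · exact h
      · omega
      · omega
  | succ k ih =>
    rw [colsN, ih, Multiset.mem_cons, Multiset.mem_add, Multiset.mem_map]
    have hpow : 2 ^ (k + 1 + 1) = 2 * 2 ^ (k + 1) := by ring
    have hpow2 : 2 ^ (k + 1) = 2 * 2 ^ k := by ring
    constructor
    · rintro ((rfl | ⟨v, hv, rfl⟩ | h) | ⟨v, h1, h2, rfl⟩ | ⟨j, h1, rfl⟩)
      · exact Or.inr (Or.inr ⟨k, by omega, rfl⟩)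
      · have hv := mem_Lev.1 hv
        exact Or.inr (Or.inl ⟨v, by have := Nat.one_le_two_pow (n := k); omega, hv.2, rfl⟩)
      · exact Or.inl h
      · exact Or.inr (Or.inl ⟨v, h1, by omega, rfl⟩)
      · exact Or.inr (Or.inr ⟨j, by omega, rfl⟩)
    · rintro (h | ⟨v, h1, h2, rfl⟩ | ⟨j, h1, rfl⟩)
      · exact Or.inl (Or.inr (Or.inr h))
      · by_cases hv : v < 2 ^ (k + 1)
        · exact Or.inr (Or.inl ⟨v, h1, hv, rfl⟩)
        · exact Or.inl (Or.inr (Or.inl ⟨v, mem_Lev.2 ⟨by omega, by omega⟩, rfl⟩))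
      · by_cases hj : j < k
        · exact Or.inr (Or.inr ⟨j, hj, rfl⟩)
        · have : j = k := by omega
          rw [this]
          exact Or.inl (Or.inl rfl)

theorem card_Lev (k : ℕ) : (Lev k).card = 2 ^ k := by
  unfold Lev
  rw [Nat.card_Ico, pow_succ]; omega

theorem card_rowsN (φ : ℕ ⊕ ℕ → α) (k : ℕ) (R : Multiset α) :
    Multiset.card (rowsN φ k R) + 1 = 2 ^ (k + 1) + k + Multiset.card R := by
  induction k generalizing R with
  | zero => simp [rowsN]; ring
  | succ k ih =>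
    rw [rowsN, ih, Multiset.card_cons, Multiset.card_add, Multiset.card_map, Finset.card_val,
      card_Lev]
    ring

theorem card_colsN (φ : ℕ ⊕ ℕ → α) (k : ℕ) (R : Multiset α) :
    Multiset.card (colsN φ k R) + 2 = 2 ^ (k + 1) + k + Multiset.card R := by
  induction k generalizing R with
  | zero => simp [colsN]; ring
  | succ k ih =>
    rw [colsN, ih, Multiset.card_cons, Multiset.card_add, Multiset.card_map, Finset.card_val,
      card_Lev]
    ring

theorem nodup_step (φ : ℕ ⊕ ℕ → α) (hφ : Function.Injective φ) (k : ℕ) (R : Multiset α)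
    (hR : R.Nodup) (hd : ∀ x ∈ R, (∀ v, v ∈ Lev (k + 1) → x ≠ φ (.inl v)) ∧ x ≠ φ (.inr k)) :
    (φ (.inr k) ::ₘ ((Lev (k + 1)).val.map (fun v => φ (.inl v)) + R)).Nodup := by
  rw [Multiset.nodup_cons, Multiset.nodup_add]
  refine ⟨?_, ?_, hR, ?_⟩
  · rw [Multiset.mem_add, Multiset.mem_map]
    rintro (⟨v, _, h⟩ | h)
    · simpa using hφ h
    · exact (hd _ h).2 rfl
  · apply Multiset.Nodup.map
    · intro a b h
      simpa using hφ h
    · exact (Lev (k + 1)).nodup
  · rw [Multiset.disjoint_left]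
    intro x hx hx'
    rw [Multiset.mem_map] at hx
    obtain ⟨v, hv, rfl⟩ := hx
    exact (hd _ hx').1 v hv rfl

theorem nodup_rowsN (φ : ℕ ⊕ ℕ → α) (hφ : Function.Injective φ) (k : ℕ) (R : Multiset α)
    (hR : R.Nodup) (hd : ∀ x ∈ R, (∀ v, v < 2 ^ (k + 1) → x ≠ φ (.inl v)) ∧
      (∀ j, j < k → x ≠ φ (.inr j))) : (rowsN φ k R).Nodup := by
  induction k generalizing R with
  | zero =>
    rw [rowsN, Multiset.nodup_cons]
    refine ⟨?_, hR⟩
    intro h
    exact (hd _ h).1 1 (by norm_num) rfl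
  | succ k ih =>
    rw [rowsN]
    apply ih
    · apply nodup_step φ hφ k R hR
      intro x hx
      exact ⟨fun v hv => (hd x hx).1 v (mem_Lev.1 hv).2, (hd x hx).2 k (Nat.lt_succ_self k)⟩
    · intro x hx
      have hpow : 2 ^ (k + 1 + 1) = 2 * 2 ^ (k + 1) := by ring
      rw [Multiset.mem_cons, Multiset.mem_add, Multiset.mem_map] at hx
      rcases hx with rfl | ⟨i, hi, rfl⟩ | hx
      · constructor
        · intro v _ h
          simpa using hφ h
        · intro j hj h
          have := hφ h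
          simp at this
          omega
      · have hi := mem_Lev.1 hi
        constructor
        · intro v hv h
          have := hφ h
          simp at this
          omega
        · intro j _ h
          simpa using hφ h
      · exact ⟨fun v hv => (hd x hx).1 v (by omega), fun j hj => (hd x hx).2 j (by omega)⟩

theorem nodup_colsN (φ : ℕ ⊕ ℕ → α) (hφ : Function.Injective φ) (k : ℕ) (R : Multiset α)
    (hR : R.Nodup) (hd : ∀ x ∈ R, (∀ v, v < 2 ^ (k + 1) → x ≠ φ (.inl v)) ∧
      (∀ j, j < k → x ≠ φ (.inr j))) : (colsN φ k R).Nodup := by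
  induction k generalizing R with
  | zero => exact hR
  | succ k ih =>
    rw [colsN]
    apply ih
    · apply nodup_step φ hφ k R hR
      intro x hx
      exact ⟨fun v hv => (hd x hx).1 v (mem_Lev.1 hv).2, (hd x hx).2 k (Nat.lt_succ_self k)⟩
    · intro x hx
      have hpow : 2 ^ (k + 1 + 1) = 2 * 2 ^ (k + 1) := by ring
      rw [Multiset.mem_cons, Multiset.mem_add, Multiset.mem_map] at hx
      rcases hx with rfl | ⟨i, hi, rfl⟩ | hx
      · constructor
        · intro v _ h
          simpa using hφ h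
        · intro j hj h
          have := hφ h
          simp at this
          omega
      · have hi := mem_Lev.1 hi
        constructor
        · intro v hv h
          have := hφ h
          simp at this
          omega
        · intro j _ h
          simpa using hφ h
      · exact ⟨fun v hv => (hd x hx).1 v (by omega), fun j hj => (hd x hx).2 j (by omega)⟩

end basics

theorem BM_perm (f : ℕ) (y1 y2 : ℕ → K) (w : ℕ → ℕ → K) :
    PP (BM f y1 y2 w) (rowsN φ1 f (colsN φ2 f 0)) (colsN φ1 f (rowsN φ2 f 0)) =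
      ∑ v ∈ Lev f, ∑ v' ∈ Lev f, uu y1 f v * uu y2 f v' * w v v' := by
  rw [net (BM f y1 y2 w) φ1 φ1 y1 (fun a b => rfl) f]
  · refine Finset.sum_congr rfl fun v hv => ?_
    rw [← PP_transpose, ← Finset.sum_congr rfl (fun v' _ => (mul_assoc (uu y1 f v) (uu y2 f v') (w v v')).symm),
      ← Finset.mul_sum]
    congr 1
    rw [show φ1 (.inl v) ::ₘ colsN φ2 f 0 = colsN φ2 f {φ1 (.inl v)} by
      rw [colsN_add φ2 f {φ1 (.inl v)}, add_comm, Multiset.singleton_add]]
    rw [net (fun b a => BM f y1 y2 w a b) φ2 φ2 y2 (fun a b => rfl) f]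
    · refine Finset.sum_congr rfl fun v' hv' => ?_
      rw [show ({φ1 (.inl v)} : Multiset G) = φ1 (.inl v) ::ₘ 0 from rfl, PP_cons_cons]
      simp only [PP_zero_zero, Multiset.map_zero, Multiset.sum_zero, add_zero, mul_one]
      congr 1
      simp only [BM, φ1, φ2]
      rw [if_pos ⟨hv, hv'⟩]
    · intro r hr
      simp at hr
    · intro r hr
      simp at hr
    · intro c hc v' hv'
      rw [Multiset.mem_singleton] at hc
      subst hc
      simp only [BM, φ1, φ2]
      rw [if_neg]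
      rintro ⟨_, h⟩
      exact not_mem_Lev_of_lt hv' h
    · intro c hc j hj
      rw [Multiset.mem_singleton] at hc
      subst hc
      simp only [BM, φ1, φ2]
  · intro r hr v hv
    rw [mem_colsN] at hr
    rcases hr with h | ⟨v, _, _, rfl⟩ | ⟨j, _, rfl⟩
    · simp at h
    · simp only [BM, φ1, φ2]
    · simp only [BM, φ1, φ2]
  · intro r hr j hj
    rw [mem_colsN] at hr
    rcases hr with h | ⟨v, _, _, rfl⟩ | ⟨j, _, rfl⟩
    · simp at h
    · simp only [BM, φ1, φ2]
    · simp only [BM, φ1, φ2]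
  · intro c hc v hv
    rw [mem_rowsN] at hc
    rcases hc with h | ⟨v', _, _, rfl⟩ | ⟨j, _, rfl⟩
    · simp at h
    · simp only [BM, φ1, φ2]
      rw [if_neg]
      rintro ⟨h, _⟩
      exact not_mem_Lev_of_lt hv h
    · simp only [BM, φ1, φ2]
  · intro c hc j hj
    rw [mem_rowsN] at hc
    rcases hc with h | ⟨v', _, _, rfl⟩ | ⟨j, _, rfl⟩
    · simp at h
    · simp only [BM, φ1, φ2]
    · simp only [BM, φ1, φ2]

/-- rows of the padded network -/
def SR (f p : ℕ) : Multiset G :=
  (Finset.range p).val.map (fun i => (.inr i : G)) + rowsN φ1 f (colsN φ2 f 0)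

/-- columns of the padded network -/
def SC (f p : ℕ) : Multiset G :=
  (Finset.range p).val.map (fun i => (.inr i : G)) + colsN φ1 f (rowsN φ2 f 0)

theorem φ1_inj : Function.Injective φ1 := by
  intro a b h; simpa [φ1] using h

theorem φ2_inj : Function.Injective φ2 := by
  intro a b h; simpa [φ2] using h

theorem mem_net_ne_pad1 (f i : ℕ) : (.inr i : G) ∉ rowsN φ1 f (colsN φ2 f 0) := by
  rw [mem_rowsN, mem_colsN]
  rintro ((h | ⟨v, _, _, h⟩ | ⟨j, _, h⟩) | ⟨v, _, _, h⟩ | ⟨j, _, h⟩)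
  · simp at h
  all_goals (simp [φ1, φ2] at h)

theorem mem_net_ne_pad2 (f i : ℕ) : (.inr i : G) ∉ colsN φ1 f (rowsN φ2 f 0) := by
  rw [mem_colsN, mem_rowsN]
  rintro ((h | ⟨v, _, _, h⟩ | ⟨j, _, h⟩) | ⟨v, _, _, h⟩ | ⟨j, _, h⟩)
  · simp at h
  all_goals (simp [φ1, φ2] at h)

theorem BM_perm_pad (f p : ℕ) (y1 y2 : ℕ → K) (w : ℕ → ℕ → K) :
    PP (BM f y1 y2 w) (SR f p) (SC f p) =
      ∑ v ∈ Lev f, ∑ v' ∈ Lev f, uu y1 f v * uu y2 f v' * w v v' := by
  rw [← BM_perm, SR, SC]
  apply PP_clear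
  · intro i _ j _
    simp only [BM]
  · intro r hr j hj
    rw [mem_rowsN, mem_colsN] at hr
    rcases hr with ((h | ⟨v, _, _, h⟩ | ⟨j, _, h⟩) | ⟨v, _, _, h⟩ | ⟨j, _, h⟩)
    · simp at h
    all_goals (subst h; simp only [BM, φ1, φ2])

theorem SR_nodup (f p : ℕ) : (SR f p).Nodup := by
  rw [SR, Multiset.nodup_add]
  refine ⟨?_, ?_, ?_⟩
  · apply Multiset.Nodup.map
    · intro a b h; simpa using h
    · exact (Finset.range p).nodup
  · apply nodup_rowsN _ φ1_inj
    · apply nodup_colsN _ φ2_inj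
      · simp
      · simp
    · intro x hx
      rw [mem_colsN] at hx
      rcases hx with (h | ⟨v, _, _, h⟩ | ⟨j, _, h⟩)
      · simp at h
      all_goals (subst h; simp [φ1, φ2])
  · rw [Multiset.disjoint_left]
    intro x hx
    rw [Multiset.mem_map] at hx
    obtain ⟨i, _, rfl⟩ := hx
    exact mem_net_ne_pad1 f i

theorem SC_nodup (f p : ℕ) : (SC f p).Nodup := by
  rw [SC, Multiset.nodup_add]
  refine ⟨?_, ?_, ?_⟩
  · apply Multiset.Nodup.map
    · intro a b h; simpa using h
    · exact (Finset.range p).nodup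
  · apply nodup_colsN _ φ1_inj
    · apply nodup_rowsN _ φ2_inj
      · simp
      · simp
    · intro x hx
      rw [mem_rowsN] at hx
      rcases hx with (h | ⟨v, _, _, h⟩ | ⟨j, _, h⟩)
      · simp at h
      all_goals (subst h; simp [φ1, φ2])
  · rw [Multiset.disjoint_left]
    intro x hx
    rw [Multiset.mem_map] at hx
    obtain ⟨i, _, rfl⟩ := hx
    exact mem_net_ne_pad2 f i

theorem SR_card (f p : ℕ) : Multiset.card (SR f p) + 3 = p + 4 * 2 ^ f + 2 * f := by
  have h1 := card_rowsN φ1 f (colsN φ2 f 0)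
  have h2 := card_colsN φ2 f 0
  rw [SR, Multiset.card_add, Multiset.card_map, Finset.card_val, Finset.card_range]
  rw [Multiset.card_zero] at h2
  have : 2 ^ (f + 1) = 2 * 2 ^ f := by ring
  omega

theorem SC_card (f p : ℕ) : Multiset.card (SC f p) + 3 = p + 4 * 2 ^ f + 2 * f := by
  have h1 := card_colsN φ1 f (rowsN φ2 f 0)
  have h2 := card_rowsN φ2 f 0
  rw [SC, Multiset.card_add, Multiset.card_map, Finset.card_val, Finset.card_range]
  rw [Multiset.card_zero] at h2
  have : 2 ^ (f + 1) = 2 * 2 ^ f := by ring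
  omega

/-- enumerate a duplicate-free multiset, with prescribed positions for some elements. -/
theorem exists_enum {α τ : Type*} [DecidableEq α] {m : ℕ} (S : Multiset α) (hS : S.Nodup)
    (hc : Multiset.card S = m) (z : τ → α) (hz : Function.Injective z) (hzS : ∀ t, z t ∈ S)
    (ρ : τ → Fin m) (hρ : Function.Injective ρ) :
    ∃ r : Fin m → α, Function.Injective r ∧ Finset.univ.val.map r = S ∧ ∀ t, r (ρ t) = z t := by
  classical
  let s : Finset α := ⟨S, hS⟩
  have hcs : s.card = m := hc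
  let e : Fin m ≃ s := (Finset.equivFinOfCardEq hcs).symm
  let z' : τ → Fin m := fun t => e.symm ⟨z t, hzS t⟩
  have hz' : Function.Injective z' := by
    intro a b h
    apply hz
    have := e.symm.injective h
    simpa using this
  let e' : {x // x ∈ Set.range ρ} ≃ {x // x ∈ Set.range z'} :=
    (Equiv.ofInjective ρ hρ).symm.trans (Equiv.ofInjective z' hz')
  let π : Equiv.Perm (Fin m) := e'.extendSubtype
  refine ⟨fun i => (e (π i) : α), ?_, ?_, ?_⟩
  · intro a b h
    exact π.injective (e.injective (Subtype.ext h))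
  · have hinj : Function.Injective (fun i => (e (π i) : α)) := by
      intro a b h
      exact π.injective (e.injective (Subtype.ext h))
    rw [Multiset.Nodup.ext (Multiset.Nodup.map hinj Finset.univ.nodup) hS]
    intro a
    rw [Multiset.mem_map]
    constructor
    · rintro ⟨i, _, rfl⟩
      exact (e (π i)).2
    · intro ha
      refine ⟨π.symm (e.symm ⟨a, ha⟩), Finset.mem_univ (π.symm (e.symm ⟨a, ha⟩)), ?_⟩
      simp
  · intro t
    have h1 : π (ρ t) = z' t := by
      have := Equiv.extendSubtype_apply_of_mem e' (ρ t) (Set.mem_range_self t)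
      rw [show π (ρ t) = e'.extendSubtype (ρ t) from rfl, this]
      simp only [e', Equiv.trans_apply]
      rw [Equiv.ofInjective_symm_apply]
      rfl
    show (e (π (ρ t)) : α) = z t
    rw [h1]
    simp [z']

/-- the centres carrying the variables -/
def zc (f : ℕ) : Fin f ⊕ Fin f → G
  | .inl k => φ1 (.inr k)
  | .inr k => φ2 (.inr k)

theorem zc_inj (f : ℕ) : Function.Injective (zc f) := by
  rintro (a | a) (b | b) h
  · simp only [zc, φ1, Sum.inl.injEq, Sum.inr.injEq] at h
    rw [Fin.ext h]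
  · simp [zc, φ1, φ2] at h
  · simp [zc, φ1, φ2] at h
  · simp only [zc, φ2, Sum.inl.injEq, Sum.inr.injEq] at h
    rw [Fin.ext h]

theorem zc_mem_SR (f p : ℕ) (t : Fin f ⊕ Fin f) : zc f t ∈ SR f p := by
  rw [SR, Multiset.mem_add, mem_rowsN, mem_colsN]
  rcases t with k | k
  · exact Or.inr (Or.inr (Or.inr ⟨k, k.2, rfl⟩))
  · exact Or.inr (Or.inl (Or.inr (Or.inr ⟨k, k.2, rfl⟩)))

theorem zc_mem_SC (f p : ℕ) (t : Fin f ⊕ Fin f) : zc f t ∈ SC f p := by
  rw [SC, Multiset.mem_add, mem_colsN, mem_rowsN]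
  rcases t with k | k
  · exact Or.inr (Or.inr (Or.inr ⟨k, k.2, rfl⟩))
  · exact Or.inr (Or.inl (Or.inr (Or.inr ⟨k, k.2, rfl⟩)))

/-- extension by zero of a function on `Fin f` -/
def ext0 {f : ℕ} (y : Fin f → K) (k : ℕ) : K := if h : k < f then y ⟨k, h⟩ else 0

theorem NA_split {f : ℕ} (y : Fin f → K) (a b : ℕ ⊕ ℕ) :
    NA (ext0 y) a b = NA (fun _ => 0) a b +
      ∑ k : Fin f, (if a = .inr (k : ℕ) ∧ b = .inr (k : ℕ) then y k else 0) := by
  rcases a with v | k <;> rcases b with w | l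
  · simp [NA]
  · simp [NA]
  · simp [NA]
  · simp only [NA, ext0]
    by_cases hkl : k = l
    · subst hkl
      by_cases hk : k < f
      · rw [if_pos rfl, dif_pos hk, if_pos rfl, zero_add, Finset.sum_eq_single ⟨k, hk⟩]
        · simp
        · intro j _ hj
          rw [if_neg]
          rintro ⟨h, _⟩
          apply hj
          simp only [Sum.inr.injEq] at h
          ext
          simp [h]
        · intro h; exact absurd (Finset.mem_univ _) h
      · rw [if_pos rfl, dif_neg hk, if_pos rfl, zero_add, Finset.sum_eq_zero]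
        intro j _
        rw [if_neg]
        rintro ⟨h, _⟩
        simp only [Sum.inr.injEq] at h
        exact hk (h ▸ j.2)
    · rw [if_neg hkl, if_neg hkl, zero_add, Finset.sum_eq_zero]
      intro j _
      rw [if_neg]
      rintro ⟨h, h'⟩
      simp only [Sum.inr.injEq] at h h'
      exact hkl (h.trans h'.symm)

theorem BM_split {f : ℕ} (Y : Fin f ⊕ Fin f → K) (w : ℕ → ℕ → K) (a b : G) :
    BM f (ext0 fun k => Y (.inl k)) (ext0 fun k => Y (.inr k)) w a b =
      BM f (fun _ => 0) (fun _ => 0) w a b +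
      ∑ t, (if a = zc f t ∧ b = zc f t then Y t else 0) := by
  have hz : ∀ a b : G, (∀ t, ¬ (a = zc f t ∧ b = zc f t)) →
      ∑ t, (if a = zc f t ∧ b = zc f t then Y t else 0) = 0 := by
    intro a b h
    apply Finset.sum_eq_zero
    intro t _
    rw [if_neg (h t)]
  have hz' : ∀ a b : G, (∀ t, ¬ (a = zc f t ∧ b = zc f t)) →
      BM f (ext0 fun k => Y (.inl k)) (ext0 fun k => Y (.inr k)) w a b =
        BM f (fun _ => 0) (fun _ => 0) w a b →
      BM f (ext0 fun k => Y (.inl k)) (ext0 fun k => Y (.inr k)) w a b =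
      BM f (fun _ => 0) (fun _ => 0) w a b +
      ∑ t, (if a = zc f t ∧ b = zc f t then Y t else 0) := by
    intro a b h h'
    rw [hz a b h, h', add_zero]
  rcases a with ((a | a) | i) <;> rcases b with ((b | b) | j)
  · rw [Fintype.sum_sum_type]
    simp only [BM]
    rw [NA_split]
    congr 1
    rw [eq_comm]
    convert add_zero _
    · apply Finset.sum_eq_zero
      intro k _
      rw [if_neg]
      simp [zc, φ2]
    · simp [zc, φ1]
    · simp [zc, φ1]
  · apply hz'
    · rintro (t | t) ⟨h1, h2⟩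
      · simp [zc, φ1] at h2
      · simp [zc, φ2] at h1
    · rcases a with v | k <;> rcases b with w | l <;> rfl
  · apply hz'
    · rintro (t | t) ⟨h1, h2⟩
      · simp [zc, φ1] at h2
      · simp [zc, φ2] at h1
    · rfl
  · apply hz'
    · rintro (t | t) ⟨h1, h2⟩
      · simp [zc, φ1] at h1
      · simp [zc, φ2] at h2
    · rfl
  · have e1 : ∑ k : Fin f, (if (Sum.inl (Sum.inr a) : G) = zc f (.inl k) ∧
        (Sum.inl (Sum.inr b) : G) = zc f (.inl k) then Y (.inl k) else 0) = 0 := by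
      apply Finset.sum_eq_zero
      intro k _
      rw [if_neg]
      simp [zc, φ1]
    have e2 : ∑ k : Fin f, (if (Sum.inl (Sum.inr a) : G) = zc f (.inr k) ∧
        (Sum.inl (Sum.inr b) : G) = zc f (.inr k) then Y (.inr k) else 0) =
        ∑ k : Fin f, (if b = .inr (k : ℕ) ∧ a = .inr (k : ℕ) then Y (.inr k) else 0) := by
      refine Finset.sum_congr rfl fun k _ => ?_
      congr 1
      apply propext
      simp only [zc, φ2, Sum.inl.injEq, Sum.inr.injEq]
      exact and_comm
    rw [Fintype.sum_sum_type, e1, e2, zero_add]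
    simp only [BM]
    exact NA_split _ b a
  · apply hz'
    · rintro (t | t) ⟨h1, h2⟩
      · simp [zc, φ1] at h2
      · simp [zc, φ2] at h2
    · rfl
  · apply hz'
    · rintro (t | t) ⟨h1, h2⟩
      · simp [zc, φ1] at h1
      · simp [zc, φ2] at h1
    · rfl
  · apply hz'
    · rintro (t | t) ⟨h1, h2⟩
      · simp [zc, φ1] at h1
      · simp [zc, φ2] at h1
    · rfl
  · apply hz'
    · rintro (t | t) ⟨h1, h2⟩
      · simp [zc, φ1] at h1
      · simp [zc, φ2] at h1
    · rfl

/-- the permanent with `2f` free transversal entries and suitable constants elsewhere -/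
theorem exists_perm {f m : ℕ} (hm : 4 * 2 ^ f + 2 * f ≤ m + 3) (ρ γ : Fin f ⊕ Fin f → Fin m)
    (hρ : Function.Injective ρ) (hγ : Function.Injective γ) (w : ℕ → ℕ → K) :
    ∃ x0 : Matrix (Fin m) (Fin m) K, ∀ Y : Fin f ⊕ Fin f → K,
      (x0 + ∑ t, Matrix.single (ρ t) (γ t) (Y t)).permanent =
      ∑ v ∈ Lev f, ∑ v' ∈ Lev f, uu (ext0 fun k => Y (.inl k)) f v *
        uu (ext0 fun k => Y (.inr k)) f v' * w v v' := by
  obtain ⟨p, hp⟩ : ∃ p, p + 4 * 2 ^ f + 2 * f = m + 3 := ⟨m + 3 - (4 * 2 ^ f + 2 * f), by omega⟩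
  obtain ⟨r, hr1, hr2, hr3⟩ := exists_enum (m := m) (SR f p) (SR_nodup f p)
    (by have := SR_card f p; omega) (zc f) (zc_inj f) (zc_mem_SR f p) ρ hρ
  obtain ⟨c, hc1, hc2, hc3⟩ := exists_enum (m := m) (SC f p) (SC_nodup f p)
    (by have := SC_card f p; omega) (zc f) (zc_inj f) (zc_mem_SC f p) γ hγ
  refine ⟨Matrix.of fun i j => BM f (fun _ => 0) (fun _ => 0) w (r i) (c j), fun Y => ?_⟩
  rw [← BM_perm_pad f p, ← hr2, ← hc2, ← permanent_eq_PP]
  congr 1
  ext i j
  rw [Matrix.of_apply, BM_split, Matrix.add_apply, Matrix.of_apply, Matrix.sum_apply]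
  congr 1
  refine Finset.sum_congr rfl fun t _ => ?_
  rw [Matrix.single_apply]
  congr 1
  apply propext
  constructor
  · rintro ⟨h1, h2⟩
    rw [← h1, ← h2]
    exact ⟨hr3 t, hc3 t⟩
  · rintro ⟨h1, h2⟩
    exact ⟨(hr1 (h1.trans (hr3 t).symm)).symm, (hc1 (h2.trans (hc3 t).symm)).symm⟩

/-- the selecting assignment -/
def Yc (f c : ℕ) (k : Fin f) : K := -2 ^ (k : ℕ) + 2 * (1 - ((c / 2 ^ (f - 1 - k) % 2 : ℕ) : K))

theorem uu_Yc (h2 : (2 : K) ≠ 0) {f c : ℕ} (hc : c ∈ Lev f) {k : ℕ} (hk : k ≤ f) :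
    (∀ v ∈ Lev k, v ≠ c / 2 ^ (f - k) → uu (ext0 (Yc (K := K) f c)) k v = 0) ∧
      uu (ext0 (Yc (K := K) f c)) k (c / 2 ^ (f - k)) ≠ 0 := by
  have hc' := mem_Lev.1 hc
  induction k with
  | zero =>
    constructor
    · intro v hv hne
      exfalso
      apply hne
      rw [mem_Lev] at hv
      have h1 : v = 1 := by omega
      rw [h1, Nat.sub_zero]
      symm
      rw [Nat.div_eq_iff (by positivity)]
      rw [pow_succ] at hc'
      omega
    · simp [uu]
  | succ k ih =>
    obtain ⟨ih1, ih2⟩ := ih (by omega)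
    have hdiv : c / 2 ^ (f - (k + 1)) / 2 = c / 2 ^ (f - k) := by
      rw [Nat.div_div_eq_div_mul, ← pow_succ]
      congr 2
      omega
    have hval : ext0 (Yc (K := K) f c) k = -2 ^ k + 2 * (1 - ((c / 2 ^ (f - (k + 1)) % 2 : ℕ) : K)) := by
      rw [ext0, dif_pos (by omega), Yc]
      congr 5
      simp only
      congr 2
      omega
    constructor
    · intro v hv hne
      rw [uu, hval]
      by_cases h : v / 2 = c / 2 ^ (f - k)
      · have h3 : v % 2 ≠ c / 2 ^ (f - (k + 1)) % 2 := by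
          intro h4
          apply hne
          omega
        have : (-2 ^ k + 2 * (1 - ((c / 2 ^ (f - (k + 1)) % 2 : ℕ) : K)) + 2 ^ k -
            2 * ((v % 2 : ℕ) : K)) = 0 := by
          rcases Nat.mod_two_eq_zero_or_one v with h5 | h5 <;>
          rcases Nat.mod_two_eq_zero_or_one (c / 2 ^ (f - (k + 1))) with h6 | h6
          · omega
          · rw [h5, h6]; push_cast; ring
          · rw [h5, h6]; push_cast; ring
          · omega
        rw [this, mul_zero]
      · rw [ih1 (v / 2) _ h, zero_mul]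
        rw [mem_Lev] at hv ⊢
        rw [pow_succ, pow_succ] at hv
        rw [pow_succ]
        omega
    · rw [uu, hval, hdiv]
      apply mul_ne_zero ih2
      rcases Nat.mod_two_eq_zero_or_one (c / 2 ^ (f - (k + 1))) with h6 | h6
      · rw [h6]; push_cast
        intro h
        apply h2
        linear_combination h
      · rw [h6]; push_cast
        intro h
        apply h2
        linear_combination -h

/-- **Key combinatorial theorem.** -/
theorem key (h2 : (2 : K) ≠ 0) {f m : ℕ} (hm : 4 * 2 ^ f + 2 * f ≤ m + 3)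
    (ρ γ : Fin f ⊕ Fin f → Fin m)
    (hρ : Function.Injective ρ) (hγ : Function.Injective γ) (g : Lev f × Lev f → K) :
    ∃ x0 : Matrix (Fin m) (Fin m) K, ∀ b : Lev f × Lev f,
      (x0 + ∑ t, Matrix.single (ρ t) (γ t)
        (Sum.elim (Yc (K := K) f b.1) (Yc f b.2) t)).permanent = g b := by
  classical
  let W : ℕ → ℕ → K := fun v v' => if h : v ∈ Lev f ∧ v' ∈ Lev f then
    g (⟨v, h.1⟩, ⟨v', h.2⟩) * ((uu (ext0 (Yc (K := K) f v)) f v)⁻¹ *
      (uu (ext0 (Yc (K := K) f v')) f v')⁻¹) else 0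
  obtain ⟨x0, hx0⟩ := exists_perm hm ρ γ hρ hγ W
  refine ⟨x0, fun b => ?_⟩
  obtain ⟨⟨b, hb⟩, ⟨b', hb'⟩⟩ := b
  rw [hx0]
  simp only [Sum.elim_inl, Sum.elim_inr]
  have hu1 := uu_Yc h2 hb (le_refl f)
  have hu2 := uu_Yc h2 hb' (le_refl f)
  simp only [Nat.sub_self, pow_zero, Nat.div_one] at hu1 hu2
  rw [Finset.sum_eq_single b]
  · rw [Finset.sum_eq_single b']
    · simp only [W]
      rw [dif_pos ⟨hb, hb'⟩]
      have := hu1.2
      have := hu2.2
      field_simp
    · intro v' hv' hne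
      rw [hu2.1 v' hv' hne]
      ring
    · intro h; exact absurd hb' h
  · intro v hv hne
    apply Finset.sum_eq_zero
    intro v' _
    rw [hu1.1 v hv hne]
    ring
  · intro h; exact absurd hb h

end Pool.Agent.T9h99
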