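import Pool.Agent.T9h99.PP

/-! A network of 0, 1, -1 entries, one variable per level, whose permanental minors are
products of affine forms in the variables. -/

namespace Pool.Agent.T9h99

set_option linter.unusedSectionVars false

open Multiset

variable {α β K : Type*} [DecidableEq α] [DecidableEq β] [CommRing K]

def Lev (k : ℕ) : Finset ℕ := Finset.Ico (2 ^ k) (2 ^ (k + 1))

theorem mem_Lev {k v : ℕ} : v ∈ Lev k ↔ 2 ^ k ≤ v ∧ v < 2 ^ (k + 1) := by
  simp [Lev]

/-- the network; `Sum.inl v` is the node `v` of a binary tree in heap numbering, `Sum.inr k`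
is the centre of level `k`. -/
def NA (y : ℕ → K) : ℕ ⊕ ℕ → ℕ ⊕ ℕ → K
  | .inl v, .inl w => if w = v ∨ w = 2 * v ∨ w = 2 * v + 1 then 1 else 0
  | .inl v, .inr k => (if v ∈ Lev k then -1 else 0) + (if v ∈ Lev (k + 1) ∧ v % 2 = 1 then 1 else 0)
  | .inr k, .inl w => if w ∈ Lev (k + 1) ∧ w % 2 = 1 then 1 else 0
  | .inr k, .inr l => if k = l then y k else 0

def uu (y : ℕ → K) : ℕ → ℕ → K
  | 0, _ => 1
  | k + 1, v => uu y k (v / 2) * (y k + 2 ^ k - 2 * ((v % 2 : ℕ) : K))

def rowsN (φ : ℕ ⊕ ℕ → α) : ℕ → Multiset α → Multiset α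
  | 0, R => φ (.inl 1) ::ₘ R
  | k + 1, R => rowsN φ k (φ (.inr k) ::ₘ ((Lev (k + 1)).val.map (fun v => φ (.inl v)) + R))

def colsN (ψ : ℕ ⊕ ℕ → β) : ℕ → Multiset β → Multiset β
  | 0, C => C
  | k + 1, C => colsN ψ k (ψ (.inr k) ::ₘ ((Lev (k + 1)).val.map (fun v => ψ (.inl v)) + C))

theorem sum_odd_range (n : ℕ) : ∑ j ∈ Finset.range (2 * n), ((j % 2 : ℕ) : K) = n := by
  induction n with
  | zero => simp
  | succ n ih =>
    rw [show 2 * (n + 1) = 2 * n + 1 + 1 by ring, Finset.sum_range_succ, Finset.sum_range_succ, ih]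
    rw [show (2 * n) % 2 = 0 by omega, show (2 * n + 1) % 2 = 1 by omega]
    push_cast
    ring

theorem sum_odd_Lev (k : ℕ) : ∑ j ∈ Lev (k + 1), ((j % 2 : ℕ) : K) = 2 ^ k := by
  unfold Lev
  rw [Finset.sum_Ico_eq_sub _ (Nat.pow_le_pow_right (by norm_num) (Nat.le_succ (k + 1)))]
  rw [show 2 ^ (k + 1 + 1) = 2 * 2 ^ (k + 1) by ring, sum_odd_range,
    show 2 ^ (k + 1) = 2 * 2 ^ k by ring, sum_odd_range]
  push_cast
  ring

theorem lev_lt {i j v : ℕ} (h : v ∈ Lev i) (hij : i < j) : v < 2 ^ j := by
  rw [mem_Lev] at h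
  exact lt_of_lt_of_le h.2 (Nat.pow_le_pow_right (by norm_num) hij)

theorem not_mem_Lev_of_lt {k v : ℕ} (h : v < 2 ^ k) : v ∉ Lev k := by
  rw [mem_Lev]; omega

theorem not_mem_Lev_of_ge {j k v : ℕ} (h : 2 ^ k ≤ v) (hjk : j < k) : v ∉ Lev j := by
  intro h'
  have := lev_lt h' hjk
  omega

theorem net (M : α → β → K) (φ : ℕ ⊕ ℕ → α) (ψ : ℕ ⊕ ℕ → β) (y : ℕ → K)
    (hM : ∀ a b, M (φ a) (ψ b) = NA y a b) (k : ℕ) (R : Multiset α) (C : Multiset β)
    (hR : ∀ r ∈ R, ∀ v, v < 2 ^ (k + 1) → M r (ψ (.inl v)) = 0)
    (hR' : ∀ r ∈ R, ∀ j, j < k → M r (ψ (.inr j)) = 0)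
    (hC : ∀ c ∈ C, ∀ v, v < 2 ^ k → M (φ (.inl v)) c = 0)
    (hC' : ∀ c ∈ C, ∀ j, j < k → M (φ (.inr j)) c = 0) :
    PP M (rowsN φ k R) (colsN ψ k C) = ∑ v ∈ Lev k, uu y k v * PP M (φ (.inl v) ::ₘ R) C := by
  induction k generalizing R C with
  | zero =>
    have : Lev 0 = {1} := by
      ext v; rw [mem_Lev]; simp; omega
    rw [this]
    simp [rowsN, colsN, uu]
  | succ k ih =>
    have hpow : 2 ^ (k + 1 + 1) = 2 * 2 ^ (k + 1) := by ring
    have hpow' : 2 ^ (k + 1) = 2 * 2 ^ k := by ring
    rw [rowsN, colsN, ih]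
    · -- main part
      have hstep : ∀ v ∈ Lev k, PP M (φ (.inl v) ::ₘ φ (.inr k) ::ₘ
          ((Lev (k + 1)).val.map (fun v => φ (.inl v)) + R))
          (ψ (.inr k) ::ₘ ((Lev (k + 1)).val.map (fun v => ψ (.inl v)) + C)) =
          ∑ i ∈ Lev (k + 1), (if i / 2 = v then (y k + 2 ^ k - 2 * ((i % 2 : ℕ) : K)) else 0) *
            PP M (φ (.inl i) ::ₘ R) C := by
        intro v hv
        have hv' := mem_Lev.1 hv
        rw [PP_star M (fun v => φ (.inl v)) (fun v => ψ (.inl v)) (Lev (k + 1)) (φ (.inl v))
          (φ (.inr k)) (ψ (.inr k)) R C]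
        · refine Finset.sum_congr rfl fun i hi => ?_
          congr 1
          have hi' := mem_Lev.1 hi
          have e1 : M (φ (.inl v)) (ψ (.inr k)) = -1 := by
            rw [hM]
            simp only [NA]
            rw [if_pos hv, if_neg, add_zero]
            rintro ⟨h, _⟩
            exact not_mem_Lev_of_lt hv'.2 h
          have e2 : ∀ j ∈ Lev (k + 1), M (φ (.inr k)) (ψ (.inl j)) = ((j % 2 : ℕ) : K) := by
            intro j hj
            rw [hM]
            simp only [NA]
            rcases Nat.mod_two_eq_zero_or_one j with h | h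
            · rw [if_neg (by omega), h]; simp
            · rw [if_pos ⟨hj, h⟩, h]; simp
          have e3 : ∀ j ∈ Lev (k + 1), M (φ (.inl v)) (ψ (.inl j)) = if j / 2 = v then 1 else 0 := by
            intro j hj
            have hj' := mem_Lev.1 hj
            rw [hM]
            simp only [NA]
            congr 1
            apply propext
            constructor
            · rintro (h | h | h) <;> omega
            · intro h; omega
          have e4 : M (φ (.inr k)) (ψ (.inr k)) = y k := by
            rw [hM]; simp [NA]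
          have e5 : ∀ j ∈ Lev (k + 1), M (φ (.inl j)) (ψ (.inr k)) = ((j % 2 : ℕ) : K) := by
            intro j hj
            have hj' := mem_Lev.1 hj
            rw [hM]
            simp only [NA]
            rw [if_neg (not_mem_Lev_of_ge hj'.1 (Nat.lt_succ_self k)), zero_add]
            rcases Nat.mod_two_eq_zero_or_one j with h | h
            · rw [if_neg (by omega), h]; simp
            · rw [if_pos ⟨hj, h⟩, h]; simp
          rw [e1, e2 i hi, e3 i hi, e4]
          have e6 : ∑ j ∈ (Lev (k + 1)).erase i, M (φ (.inl j)) (ψ (.inr k)) *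
              (M (φ (.inl v)) (ψ (.inl j)) * ((i % 2 : ℕ) : K) +
                (if i / 2 = v then 1 else 0) * M (φ (.inr k)) (ψ (.inl j))) =
              ∑ j ∈ (Lev (k + 1)).erase i, (((i % 2 : ℕ) : K) * (if j = 2 * v + 1 then 1 else 0) +
                (if i / 2 = v then 1 else 0) * ((j % 2 : ℕ) : K)) := by
            refine Finset.sum_congr rfl fun j hj => ?_
            have hj := Finset.mem_of_mem_erase hj
            rw [e5 j hj, e3 j hj, e2 j hj]
            rcases Nat.mod_two_eq_zero_or_one j with h | h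
            · rw [h, if_neg (show ¬ j = 2 * v + 1 by omega)]
              simp
            · rw [h]
              by_cases h2 : j / 2 = v
              · rw [if_pos h2, if_pos (show j = 2 * v + 1 by omega)]
                simp
              · rw [if_neg h2, if_neg (show ¬ j = 2 * v + 1 by omega)]
                simp
          rw [e6, Finset.sum_add_distrib, ← Finset.mul_sum, ← Finset.mul_sum]
          have e7 : ∑ j ∈ (Lev (k + 1)).erase i, ((j % 2 : ℕ) : K) = 2 ^ k - ((i % 2 : ℕ) : K) := by
            rw [eq_sub_iff_add_eq, Finset.sum_erase_add _ _ hi, sum_odd_Lev]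
          have e8 : ∑ j ∈ (Lev (k + 1)).erase i, (if j = 2 * v + 1 then (1 : K) else 0) =
              1 - (if i = 2 * v + 1 then 1 else 0) := by
            rw [eq_sub_iff_add_eq, Finset.sum_erase_add _ (fun j => if j = 2 * v + 1 then (1 : K) else 0) hi,
              Finset.sum_ite_eq' (Lev (k + 1)) (2 * v + 1), if_pos]
            rw [mem_Lev]
            omega
          rw [e7, e8]
          rcases Nat.mod_two_eq_zero_or_one i with h | h
          · rw [h, if_neg (show ¬ i = 2 * v + 1 by omega)]
            by_cases h2 : i / 2 = v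
            · rw [if_pos h2, if_pos h2]; push_cast; ring
            · rw [if_neg h2, if_neg h2]; push_cast; ring
          · rw [h]
            by_cases h2 : i / 2 = v
            · rw [if_pos h2, if_pos h2, if_pos (show i = 2 * v + 1 by omega)]; push_cast; ring
            · rw [if_neg h2, if_neg h2, if_neg (show ¬ i = 2 * v + 1 by omega)]; push_cast; ring
        · intro i hi j hj
          have hi' := mem_Lev.1 hi
          have hj' := mem_Lev.1 hj
          rw [hM]
          simp only [NA]
          congr 1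
          apply propext
          constructor
          · rintro (h | h | h) <;> omega
          · intro h; omega
        · intro r hr j hj
          exact hR r hr j (mem_Lev.1 hj).2
        · intro r hr
          exact hR' r hr k (Nat.lt_succ_self k)
        · intro c hc
          exact hC c hc v hv'.2
        · intro c hc
          exact hC' c hc k (Nat.lt_succ_self k)
      have hs : ∑ v ∈ Lev k, uu y k v * PP M (φ (.inl v) ::ₘ φ (.inr k) ::ₘ
          ((Lev (k + 1)).val.map (fun v => φ (.inl v)) + R))
          (ψ (.inr k) ::ₘ ((Lev (k + 1)).val.map (fun v => ψ (.inl v)) + C)) =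
          ∑ v ∈ Lev k, ∑ i ∈ Lev (k + 1), uu y k v * ((if i / 2 = v then
            (y k + 2 ^ k - 2 * ((i % 2 : ℕ) : K)) else 0) * PP M (φ (.inl i) ::ₘ R) C) := by
        refine Finset.sum_congr rfl fun v hv => ?_
        rw [hstep v hv, Finset.mul_sum]
      rw [hs, Finset.sum_comm]
      refine Finset.sum_congr rfl fun i hi => ?_
      have hi' := mem_Lev.1 hi
      rw [Finset.sum_eq_single (i / 2)]
      · rw [if_pos rfl, uu]; ring
      · intro v _ hv
        rw [if_neg (Ne.symm hv)]; ring
      · intro h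
        exfalso
        apply h
        rw [mem_Lev]
        omega
    · -- hR
      intro r hr v hv
      rw [Multiset.mem_cons, Multiset.mem_add, Multiset.mem_map] at hr
      rcases hr with rfl | ⟨i, hi, rfl⟩ | hr
      · rw [hM]
        simp only [NA]
        rw [if_neg]
        rintro ⟨h, _⟩
        exact not_mem_Lev_of_lt hv h
      · have hi' := mem_Lev.1 hi
        rw [hM]
        simp only [NA]
        rw [if_neg]
        omega
      · exact hR r hr v (by omega)
    · intro r hr j hj
      rw [Multiset.mem_cons, Multiset.mem_add, Multiset.mem_map] at hr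
      rcases hr with rfl | ⟨i, hi, rfl⟩ | hr
      · rw [hM]
        simp only [NA]
        rw [if_neg (by omega)]
      · have hi' := mem_Lev.1 hi
        rw [hM]
        simp only [NA]
        rw [if_neg (not_mem_Lev_of_ge hi'.1 (by omega)), if_neg, add_zero]
        rintro ⟨h, _⟩
        exact not_mem_Lev_of_ge hi'.1 (by omega) h
      · exact hR' r hr j (by omega)
    · intro c hc v hv
      rw [Multiset.mem_cons, Multiset.mem_add, Multiset.mem_map] at hc
      rcases hc with rfl | ⟨i, hi, rfl⟩ | hc
      · rw [hM]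
        simp only [NA]
        rw [if_neg (not_mem_Lev_of_lt hv), if_neg, add_zero]
        rintro ⟨h, _⟩
        exact not_mem_Lev_of_lt (by omega) h
      · have hi' := mem_Lev.1 hi
        rw [hM]
        simp only [NA]
        rw [if_neg]
        omega
      · exact hC c hc v (by omega)
    · intro c hc j hj
      rw [Multiset.mem_cons, Multiset.mem_add, Multiset.mem_map] at hc
      rcases hc with rfl | ⟨i, hi, rfl⟩ | hc
      · rw [hM]
        simp only [NA]
        rw [if_neg (by omega)]
      · have hi' := mem_Lev.1 hi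
        rw [hM]
        simp only [NA]
        rw [if_neg]
        rintro ⟨h, _⟩
        exact not_mem_Lev_of_ge hi'.1 (by omega) h
      · exact hC' c hc j (by omega)

end Pool.Agent.T9h99
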