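import Mathlib

/-! Permanents with rows and columns given as multisets. -/

namespace Pool.Agent.T9h99

set_option linter.unusedSectionVars false

open Multiset

variable {α β K : Type*} [DecidableEq α] [DecidableEq β] [CommRing K]

/-- permanent of the matrix `A` with rows listed in `l` and columns in the multiset `t`. -/
def PL (A : α → β → K) : List α → Multiset β → K
  | [], t => if t = 0 then 1 else 0
  | a :: l, t => (t.map (fun b => A a b * PL A l (t.erase b))).sum

theorem sum_erase_swap (t : Multiset β) (F : β → β → K) :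
    (t.map fun b => ((t.erase b).map fun b' => F b b').sum).sum =
      (t.map fun b => ((t.erase b).map fun b' => F b' b).sum).sum := by
  have h : ∀ G : β → β → K, (t.map fun b => ((t.erase b).map fun b' => G b b').sum).sum =
      (t.map fun b => (t.map fun b' => G b b').sum).sum - (t.map fun b => G b b).sum := by
    intro G
    rw [eq_sub_iff_add_eq, ← Multiset.sum_map_add]
    congr 1
    apply Multiset.map_congr rfl
    intro b hb
    conv_rhs => rw [← Multiset.cons_erase hb]
    rw [Multiset.map_cons, Multiset.sum_cons, add_comm]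
  rw [h F, h (fun b b' => F b' b)]
  congr 1
  rw [Multiset.sum_map_sum_map]

theorem PL_swap (A : α → β → K) (a a' : α) (l : List α) (t : Multiset β) :
    PL A (a :: a' :: l) t = PL A (a' :: a :: l) t := by
  simp only [PL]
  simp only [← Multiset.sum_map_mul_left]
  rw [sum_erase_swap]
  congr 1
  apply Multiset.map_congr rfl
  intro b hb
  congr 1
  apply Multiset.map_congr rfl
  intro b' hb'
  rw [Multiset.erase_comm]
  ring

theorem PL_perm (A : α → β → K) {l l' : List α} (h : l.Perm l') (t : Multiset β) :
    PL A l t = PL A l' t := by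
  induction h generalizing t with
  | nil => rfl
  | cons a _ ih => simp only [PL, ih]
  | swap a b l => exact PL_swap A b a l t
  | trans _ _ ih1 ih2 => rw [ih1, ih2]

/-- permanent of the matrix `A` with rows in the multiset `s` and columns in the multiset `t`. -/
def PP (A : α → β → K) (s : Multiset α) (t : Multiset β) : K :=
  Quot.liftOn s (fun l => PL A l t) (fun _ _ h => PL_perm A h t)

theorem PP_coe (A : α → β → K) (l : List α) (t : Multiset β) : PP A (l : Multiset α) t = PL A l t :=
  rfl

theorem PP_zero (A : α → β → K) (t : Multiset β) : PP A 0 t = if t = 0 then 1 else 0 := rfl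

@[simp] theorem PP_zero_zero (A : α → β → K) : PP A 0 0 = 1 := by simp [PP_zero]

theorem PP_cons (A : α → β → K) (a : α) (s : Multiset α) (t : Multiset β) :
    PP A (a ::ₘ s) t = (t.map fun b => A a b * PP A s (t.erase b)).sum := by
  induction s using Quot.inductionOn
  rfl

theorem erase_cons_of_mem {a b : α} {t : Multiset α} (h : b ∈ t) :
    (a ::ₘ t).erase b = a ::ₘ t.erase b := by
  by_cases hab : a = b
  · subst hab; rw [Multiset.erase_cons_head, Multiset.cons_erase h]
  · rw [Multiset.erase_cons_tail _ hab]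

/-- row expansion, one column singled out. -/
theorem PP_cons_cons (A : α → β → K) (a : α) (b : β) (s : Multiset α) (t : Multiset β) :
    PP A (a ::ₘ s) (b ::ₘ t) = A a b * PP A s t +
      (t.map fun c => A a c * PP A s (b ::ₘ t.erase c)).sum := by
  rw [PP_cons, Multiset.map_cons, Multiset.sum_cons, Multiset.erase_cons_head]
  congr 2
  apply Multiset.map_congr rfl
  intro c hc
  rw [erase_cons_of_mem hc]

/-- column expansion -/
theorem PP_col (A : α → β → K) (s : Multiset α) (b : β) (t : Multiset β) :
    PP A s (b ::ₘ t) = (s.map fun a => A a b * PP A (s.erase a) t).sum := by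
  induction s using Multiset.induction_on generalizing t with
  | empty => simp [PP_zero]
  | cons a s ih =>
    rw [PP_cons_cons, Multiset.map_cons, Multiset.sum_cons, Multiset.erase_cons_head]
    congr 1
    have h1 : (t.map fun c => A a c * PP A s (b ::ₘ t.erase c)).sum =
        (t.map fun c => (s.map fun a' => A a' b * (A a c * PP A (s.erase a') (t.erase c))).sum).sum := by
      congr 1
      apply Multiset.map_congr rfl
      intro c _
      rw [ih, ← Multiset.sum_map_mul_left]
      congr 1
      apply Multiset.map_congr rfl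
      intro a' _
      ring
    rw [h1, Multiset.sum_map_sum_map]
    congr 1
    apply Multiset.map_congr rfl
    intro a' ha'
    rw [erase_cons_of_mem ha', PP_cons, Multiset.sum_map_mul_left]

/-- transposition -/
theorem PP_transpose (A : α → β → K) (s : Multiset α) (t : Multiset β) :
    PP (fun b a => A a b) t s = PP A s t := by
  induction s using Multiset.induction_on generalizing t with
  | empty =>
    induction t using Multiset.induction_on with
    | empty => simp
    | cons b t _ => rw [PP_cons, PP_zero]; simp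
  | cons a s ih =>
    rw [PP_col, PP_cons]
    congr 1
    apply Multiset.map_congr rfl
    intro b _
    rw [ih]

/-- a column with a single nonzero row -/
theorem PP_single_col (A : α → β → K) (a : α) (s : Multiset α) (b : β) (t : Multiset β)
    (h : ∀ r ∈ s, A r b = 0) : PP A (a ::ₘ s) (b ::ₘ t) = A a b * PP A s t := by
  rw [PP_col, Multiset.map_cons, Multiset.sum_cons, Multiset.erase_cons_head]
  have : (s.map fun a' => A a' b * PP A ((a ::ₘ s).erase a') t).sum = 0 := by
    apply Multiset.sum_eq_zero
    intro x hx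
    rw [Multiset.mem_map] at hx
    obtain ⟨r, hr, rfl⟩ := hx
    rw [h r hr, zero_mul]
  rw [this, add_zero]

theorem PP_congr {A A' : α → β → K} (s : Multiset α) (t : Multiset β)
    (h : ∀ a ∈ s, ∀ b ∈ t, A a b = A' a b) : PP A s t = PP A' s t := by
  induction s using Multiset.induction_on generalizing t with
  | empty => rfl
  | cons a s ih =>
    rw [PP_cons, PP_cons]
    congr 1
    apply Multiset.map_congr rfl
    intro b hb
    rw [h a (Multiset.mem_cons_self a s) b hb, ih]
    intro a' ha' b' hb'
    exact h a' (Multiset.mem_cons_of_mem ha') b' (Multiset.mem_of_mem_erase hb')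

/-- clearing an identity block -/
theorem PP_clear {J : Type*} [DecidableEq J] (A : α → β → K) (p : J → α) (q : J → β)
    (κ : Finset J) (R : Multiset α) (C : Multiset β)
    (h1 : ∀ i ∈ κ, ∀ j ∈ κ, A (p i) (q j) = if i = j then 1 else 0)
    (h2 : ∀ r ∈ R, ∀ j ∈ κ, A r (q j) = 0) :
    PP A (κ.val.map p + R) (κ.val.map q + C) = PP A R C := by
  induction κ using Finset.induction_on with
  | empty => simp
  | insert j κ hj ih =>
    rw [Finset.insert_val_of_notMem hj, Multiset.map_cons, Multiset.map_cons, Multiset.cons_add,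
      Multiset.cons_add, PP_single_col, h1 j (by simp) j (by simp), if_pos rfl, one_mul]
    · apply ih
      · intro i hi k hk
        exact h1 i (Finset.mem_insert_of_mem hi) k (Finset.mem_insert_of_mem hk)
      · intro r hr k hk
        exact h2 r hr k (Finset.mem_insert_of_mem hk)
    · intro r hr
      rw [Multiset.mem_add, Multiset.mem_map] at hr
      rcases hr with ⟨i, hi, rfl⟩ | hr
      · rw [h1 i (Finset.mem_insert_of_mem hi) j (by simp), if_neg]
        rintro rfl
        exact hj hi
      · exact h2 r hr j (by simp)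

/-- Laplace expansion of the permanent along the first column. -/
theorem permanent_succ_col {n : ℕ} (A : Matrix (Fin (n + 1)) (Fin (n + 1)) K) :
    A.permanent = ∑ i, A i 0 * (A.submatrix i.succAbove Fin.succ).permanent := by
  rw [Matrix.permanent, Finset.univ_perm_fin_succ, ← Finset.univ_product_univ]
  simp only [Finset.sum_map, Equiv.toEmbedding_apply, Finset.sum_product, Matrix.submatrix]
  refine Finset.sum_congr rfl fun i _ => ?_
  refine Fin.cases ?_ (fun i => ?_) i
  · simp only [Fin.prod_univ_succ, Matrix.permanent, Finset.mul_sum,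
      Equiv.Perm.decomposeFin_symm_apply_zero, Equiv.swap_self,
      Equiv.Perm.decomposeFin_symm_apply_succ, Fin.succAbove_zero, Equiv.coe_refl,
      Matrix.of_apply, id]
  · have key : (Matrix.of fun a b => A (i.succ.succAbove a) b.succ).permanent =
        (Matrix.of fun a b => A (i.succ.succAbove (i.cycleRange a)) b.succ).permanent := by
      rw [← Matrix.permanent_permute_cols i.cycleRange
        (Matrix.of fun a b => A (i.succ.succAbove a) b.succ)]
      rfl
    rw [key, Matrix.permanent, Finset.mul_sum]
    refine Finset.sum_congr rfl fun σ _ => ?_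
    simp only [Fin.prod_univ_succ, Matrix.of_apply, Fin.succAbove_cycleRange,
        Equiv.Perm.decomposeFin_symm_apply_zero, Equiv.Perm.decomposeFin_symm_apply_succ]

/-- Laplace expansion of the permanent along the first row. -/
theorem permanent_succ {n : ℕ} (M : Matrix (Fin (n + 1)) (Fin (n + 1)) K) :
    M.permanent = ∑ j, M 0 j * (M.submatrix Fin.succ j.succAbove).permanent := by
  rw [← Matrix.permanent_transpose, permanent_succ_col]
  refine Finset.sum_congr rfl fun j _ => ?_
  rw [← Matrix.permanent_transpose]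
  rfl

theorem map_univ_succAbove {n : ℕ} (c : Fin (n + 1) → β) (j : Fin (n + 1)) :
    (Finset.univ.val.map c) = c j ::ₘ (Finset.univ.val.map (c ∘ j.succAbove)) := by
  rw [Fin.univ_succAbove n j, Finset.cons_val, Multiset.map_cons, Finset.map_val,
    Multiset.map_map]
  rfl

theorem permanent_eq_PP (A : α → β → K) {n : ℕ} (r : Fin n → α) (c : Fin n → β) :
    (Matrix.of fun i j => A (r i) (c j)).permanent =
      PP A (Finset.univ.val.map r) (Finset.univ.val.map c) := by
  induction n with
  | zero => simp [Matrix.permanent_isEmpty]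
  | succ n ih =>
    rw [permanent_succ, map_univ_succAbove r 0, PP_cons, Multiset.map_map]
    have : (Finset.univ : Finset (Fin (n+1))).sum (fun j => A (r 0) (c j) *
        PP A (Finset.univ.val.map (r ∘ Fin.succ)) ((Finset.univ.val.map c).erase (c j))) =
        (Multiset.map ((fun b ↦ A (r 0) b * PP A (Multiset.map (r ∘ Fin.succAbove 0) Finset.univ.val)
          ((Multiset.map c Finset.univ.val).erase b)) ∘ c) Finset.univ.val).sum := by
      rfl
    rw [← this]
    refine Finset.sum_congr rfl fun j _ => ?_
    rw [map_univ_succAbove c j, Multiset.erase_cons_head, ← ih]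
    rfl

section star
variable {J : Type*} [DecidableEq J]

theorem val_eq_cons_erase {ι : Finset J} {i : J} (h : i ∈ ι) : ι.val = i ::ₘ (ι.erase i).val := by
  rw [Finset.erase_val, Multiset.cons_erase h]

/-- row expansion for a row vanishing on `C` -/
theorem PP_row1 (A : α → β → K) (q : J → β) (ι : Finset J) (v : α) (S : Multiset α)
    (C : Multiset β) (hv : ∀ c ∈ C, A v c = 0) :
    PP A (v ::ₘ S) (ι.val.map q + C) =
      ∑ i ∈ ι, A v (q i) * PP A S ((ι.erase i).val.map q + C) := by
  rw [PP_cons, Multiset.map_add, Multiset.sum_add]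
  have h0 : (C.map fun b => A v b * PP A S ((ι.val.map q + C).erase b)).sum = 0 := by
    apply Multiset.sum_eq_zero
    intro x hx
    rw [Multiset.mem_map] at hx
    obtain ⟨c, hc, rfl⟩ := hx
    rw [hv c hc, zero_mul]
  rw [h0, add_zero, Multiset.map_map]
  refine Finset.sum_congr rfl fun i hi => ?_
  simp only [Function.comp]
  congr 2
  rw [val_eq_cons_erase hi, Multiset.map_cons, Multiset.cons_add, Multiset.erase_cons_head]

theorem PP_row2 (A : α → β → K) (q : J → β) (ι : Finset J) (v : α) (zc : β) (S : Multiset α)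
    (C : Multiset β) (hv : ∀ c ∈ C, A v c = 0) :
    PP A (v ::ₘ S) (zc ::ₘ (ι.val.map q + C)) = A v zc * PP A S (ι.val.map q + C) +
      ∑ i ∈ ι, A v (q i) * PP A S (zc ::ₘ ((ι.erase i).val.map q + C)) := by
  rw [PP_cons_cons, Multiset.map_add, Multiset.sum_add]
  have h0 : (C.map fun b => A v b * PP A S (zc ::ₘ (ι.val.map q + C).erase b)).sum = 0 := by
    apply Multiset.sum_eq_zero
    intro x hx
    rw [Multiset.mem_map] at hx
    obtain ⟨c, hc, rfl⟩ := hx
    rw [hv c hc, zero_mul]
  rw [h0, add_zero, Multiset.map_map]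
  congr 1
  refine Finset.sum_congr rfl fun i hi => ?_
  simp only [Function.comp]
  congr 3
  rw [val_eq_cons_erase hi, Multiset.map_cons, Multiset.cons_add, Multiset.erase_cons_head]

theorem PP_two_col (A : α → β → K) (a a' : α) (b : β) (R : Multiset α) (C : Multiset β)
    (h : ∀ r ∈ R, A r b = 0) :
    PP A (a ::ₘ a' ::ₘ R) (b ::ₘ C) = A a b * PP A (a' ::ₘ R) C + A a' b * PP A (a ::ₘ R) C := by
  rw [← PP_transpose, PP_cons_cons, Multiset.map_cons, Multiset.sum_cons]
  have h0 : (R.map fun c => A c b * PP (fun b a => A a b) C (a ::ₘ (a' ::ₘ R).erase c)).sum = 0 := by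
    apply Multiset.sum_eq_zero
    intro x hx
    rw [Multiset.mem_map] at hx
    obtain ⟨c, hc, rfl⟩ := hx
    rw [h c hc, zero_mul]
  rw [h0, add_zero, Multiset.erase_cons_head, PP_transpose A (a' ::ₘ R) C,
    PP_transpose A (a ::ₘ R) C]

theorem PP_star (A : α → β → K) (p : J → α) (q : J → β) (ι : Finset J) (v z : α) (zc : β)
    (R : Multiset α) (C : Multiset β)
    (h1 : ∀ i ∈ ι, ∀ j ∈ ι, A (p i) (q j) = if i = j then 1 else 0)
    (h2 : ∀ r ∈ R, ∀ j ∈ ι, A r (q j) = 0)
    (h3 : ∀ r ∈ R, A r zc = 0)
    (hv : ∀ c ∈ C, A v c = 0) (hz : ∀ c ∈ C, A z c = 0) :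
    PP A (v ::ₘ z ::ₘ (ι.val.map p + R)) (zc ::ₘ (ι.val.map q + C)) =
      ∑ i ∈ ι, (A v zc * A z (q i) + A v (q i) * A z zc +
        ∑ j ∈ ι.erase i, A (p j) zc * (A v (q j) * A z (q i) + A v (q i) * A z (q j))) *
          PP A (p i ::ₘ R) C := by
  have D1 : ∀ i ∈ ι, PP A (ι.val.map p + R) ((ι.erase i).val.map q + C) = PP A (p i ::ₘ R) C := by
    intro i hi
    rw [val_eq_cons_erase hi, Multiset.map_cons, Multiset.cons_add, ← Multiset.add_cons]
    apply PP_clear
    · intro a ha b hb
      exact h1 a (Finset.mem_of_mem_erase ha) b (Finset.mem_of_mem_erase hb)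
    · intro r hr j hj
      rw [Multiset.mem_cons] at hr
      rcases hr with rfl | hr
      · rw [h1 i hi j (Finset.mem_of_mem_erase hj), if_neg]
        rintro rfl
        exact Finset.notMem_erase _ _ hj
      · exact h2 r hr j (Finset.mem_of_mem_erase hj)
  have D2 : ∀ i ∈ ι, ∀ j ∈ ι.erase i,
      PP A (ι.val.map p + R) (zc ::ₘ (((ι.erase i).erase j).val.map q + C)) =
        A (p i) zc * PP A (p j ::ₘ R) C + A (p j) zc * PP A (p i ::ₘ R) C := by
    intro i hi j hj
    have hji : j ≠ i := Finset.ne_of_mem_erase hj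
    have hjι : j ∈ ι := Finset.mem_of_mem_erase hj
    rw [val_eq_cons_erase hi, val_eq_cons_erase hj, Multiset.map_cons, Multiset.map_cons,
      Multiset.cons_add, Multiset.cons_add, ← Multiset.add_cons, ← Multiset.add_cons,
      ← Multiset.add_cons]
    rw [PP_clear, Multiset.cons_swap, PP_two_col _ _ _ _ _ _ h3]
    · rw [add_comm]
    · intro a ha b hb
      exact h1 a (Finset.mem_of_mem_erase (Finset.mem_of_mem_erase ha)) b
        (Finset.mem_of_mem_erase (Finset.mem_of_mem_erase hb))
    · intro r hr k hk
      have hk1 : k ≠ j := Finset.ne_of_mem_erase hk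
      have hk2 : k ≠ i := Finset.ne_of_mem_erase (Finset.mem_of_mem_erase hk)
      have hk3 : k ∈ ι := Finset.mem_of_mem_erase (Finset.mem_of_mem_erase hk)
      simp only [Multiset.mem_cons] at hr
      rcases hr with rfl | rfl | hr
      · rw [h1 _ (by assumption) _ hk3, if_neg]; tauto
      · rw [h1 _ (by assumption) _ hk3, if_neg]; tauto
      · exact h2 r hr k hk3
  rw [PP_row2 A q ι v zc _ C hv, PP_row1 A q ι z _ C hz]
  have E2 : ∑ i ∈ ι, A v (q i) * PP A (z ::ₘ (ι.val.map p + R))
      (zc ::ₘ ((ι.erase i).val.map q + C)) =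
      ∑ i ∈ ι, A v (q i) * (A z zc * PP A (p i ::ₘ R) C + ∑ j ∈ ι.erase i, A z (q j) *
        (A (p i) zc * PP A (p j ::ₘ R) C + A (p j) zc * PP A (p i ::ₘ R) C)) := by
    refine Finset.sum_congr rfl fun i hi => ?_
    rw [PP_row2 A q (ι.erase i) z zc _ C hz, D1 i hi]
    congr 2
    refine Finset.sum_congr rfl fun j hj => ?_
    rw [D2 i hi j hj]
  have E1 : ∑ i ∈ ι, A z (q i) * PP A (ι.val.map p + R) ((ι.erase i).val.map q + C) =
      ∑ i ∈ ι, A z (q i) * PP A (p i ::ₘ R) C := by
    refine Finset.sum_congr rfl fun i hi => ?_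
    rw [D1 i hi]
  rw [E1, E2]
  have E3 : ∑ i ∈ ι, A v (q i) * (A z zc * PP A (p i ::ₘ R) C + ∑ j ∈ ι.erase i, A z (q j) *
        (A (p i) zc * PP A (p j ::ₘ R) C + A (p j) zc * PP A (p i ::ₘ R) C)) =
      ∑ i ∈ ι, A v (q i) * A z zc * PP A (p i ::ₘ R) C +
      (∑ i ∈ ι, ∑ j ∈ ι.erase i, A v (q i) * A z (q j) * A (p i) zc * PP A (p j ::ₘ R) C +
       ∑ i ∈ ι, ∑ j ∈ ι.erase i, A v (q i) * A z (q j) * A (p j) zc * PP A (p i ::ₘ R) C) := by
    rw [← Finset.sum_add_distrib, ← Finset.sum_add_distrib]
    refine Finset.sum_congr rfl fun i hi => ?_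
    rw [← Finset.sum_add_distrib, mul_add, Finset.mul_sum, mul_assoc]
    congr 1
    refine Finset.sum_congr rfl fun j hj => ?_
    ring
  have E4 : ∑ i ∈ ι, ∑ j ∈ ι.erase i, A v (q i) * A z (q j) * A (p i) zc * PP A (p j ::ₘ R) C =
      ∑ i ∈ ι, ∑ j ∈ ι.erase i, A v (q j) * A z (q i) * A (p j) zc * PP A (p i ::ₘ R) C := by
    apply Finset.sum_comm'
    intro x y
    simp only [Finset.mem_erase]
    tauto
  rw [E3, E4, ← Finset.sum_add_distrib, ← Finset.sum_add_distrib, Finset.mul_sum,
    ← Finset.sum_add_distrib]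
  refine Finset.sum_congr rfl fun i hi => ?_
  rw [← Finset.sum_add_distrib, add_mul, add_mul, Finset.sum_mul]
  have : ∀ j ∈ ι.erase i, A v (q j) * A z (q i) * A (p j) zc * PP A (p i ::ₘ R) C +
      A v (q i) * A z (q j) * A (p j) zc * PP A (p i ::ₘ R) C =
      A (p j) zc * (A v (q j) * A z (q i) + A v (q i) * A z (q j)) * PP A (p i ::ₘ R) C := by
    intro j _
    ring
  rw [Finset.sum_congr rfl this]
  ring

end star

end Pool.Agent.T9h99
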