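import Mathlib

/-! Averaging over cyclic windows. -/

namespace Pool.Agent.T9h99

/-- If the sum of `r` over any `2f` positions in distinct rows and distinct columns is at least
`N`, then the total of `r` is at least `m ^ 2 N / (2 f)`. -/
theorem window {m f N : ℕ} (hfm : 2 * f ≤ m) (r : Fin m → Fin m → ℕ)
    (h : ∀ ρ γ : Fin (2 * f) → Fin m, Function.Injective ρ → Function.Injective γ →
      N ≤ ∑ t, r (ρ t) (γ t)) :
    m ^ 2 * N ≤ 2 * f * ∑ i, ∑ j, r i j := by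
  rcases Nat.eq_zero_or_pos m with rfl | hm
  · simp
  have : NeZero m := ⟨by omega⟩
  let s : Fin (2 * f) → Fin m := Fin.castLE hfm
  have hs : Function.Injective s := Fin.castLE_injective hfm
  have h1 : ∀ i j : Fin m, N ≤ ∑ t, r (s t + i) (s t + j) := by
    intro i j
    apply h (fun t => s t + i) (fun t => s t + j)
    · intro a b hab
      exact hs (add_right_cancel hab)
    · intro a b hab
      exact hs (add_right_cancel hab)
  have h2 : ∑ i : Fin m, ∑ j : Fin m, ∑ t, r (s t + i) (s t + j) = 2 * f * ∑ i, ∑ j, r i j := by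
    have h3 : ∀ t, ∑ i : Fin m, ∑ j : Fin m, r (s t + i) (s t + j) = ∑ i, ∑ j, r i j := by
      intro t
      refine (Equiv.sum_comp (Equiv.addLeft (s t)) (fun i => ∑ j : Fin m, r i (s t + j))).trans ?_
      refine Finset.sum_congr rfl fun i _ => ?_
      exact Equiv.sum_comp (Equiv.addLeft (s t)) (fun j => r i j)
    calc ∑ i : Fin m, ∑ j : Fin m, ∑ t, r (s t + i) (s t + j)
        = ∑ i : Fin m, ∑ t, ∑ j : Fin m, r (s t + i) (s t + j) :=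
          Finset.sum_congr rfl fun i _ => Finset.sum_comm
      _ = ∑ t, ∑ i : Fin m, ∑ j : Fin m, r (s t + i) (s t + j) := Finset.sum_comm
      _ = ∑ _t : Fin (2 * f), ∑ i, ∑ j, r i j := Finset.sum_congr rfl fun t _ => h3 t
      _ = 2 * f * ∑ i, ∑ j, r i j := by simp
  rw [← h2]
  calc m ^ 2 * N = ∑ _i : Fin m, ∑ _j : Fin m, N := by simp; ring
    _ ≤ _ := Finset.sum_le_sum fun i _ => Finset.sum_le_sum fun j _ => h1 i j

theorem arith_aux (k : ℕ) : 2 * (k + 1) * k ≤ 48 * 2 ^ k := by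
  induction k with
  | zero => simp
  | succ k ih =>
    have h : k < 2 ^ k := Nat.lt_two_pow_self
    have h2 : 2 * (k + 1 + 1) * (k + 1) = 2 * (k + 1) * k + 4 * (k + 1) := by ring
    rw [h2, pow_succ]
    omega

theorem log_arith {m : ℕ} (hm : 16 ≤ m) :
    ∃ f, 1 ≤ f ∧ 4 * 2 ^ f + 2 * f ≤ m + 3 ∧ f * m ≤ 8 * Nat.log 2 m * 2 ^ f ∧
      m ≤ 16 * 2 ^ f := by
  have h4 : 4 ≤ Nat.log 2 m := by
    apply (Nat.le_log_iff_pow_le (by norm_num) (by omega)).2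
    omega
  have hlow : 2 ^ Nat.log 2 m ≤ m := Nat.pow_log_le_self 2 (by omega)
  have hup : m < 2 ^ (Nat.log 2 m + 1) := Nat.lt_pow_succ_log_self (by norm_num) m
  obtain ⟨k, hk⟩ : ∃ k, Nat.log 2 m = k + 4 := ⟨Nat.log 2 m - 4, by omega⟩
  rw [hk] at hlow hup ⊢
  by_cases hc : 4 * 2 ^ (k + 2) + 2 * (k + 2) ≤ m + 3
  · have h1 : m ≤ 8 * 2 ^ (k + 2) := by
      rw [show k + 4 + 1 = (k + 2) + 3 by ring, pow_add _ (k + 2) 3] at hup
      omega
    refine ⟨k + 2, by omega, hc, ?_, by omega⟩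
    calc (k + 2) * m ≤ (k + 4) * (8 * 2 ^ (k + 2)) := Nat.mul_le_mul (by omega) h1
      _ = 8 * (k + 4) * 2 ^ (k + 2) := by ring
  · have h6 : m ≤ 16 * 2 ^ (k + 1) := by
      rw [show k + 4 + 1 = (k + 1) + 4 by ring, pow_add _ (k + 1) 4] at hup
      omega
    refine ⟨k + 1, by omega, ?_, ?_, h6⟩
    · have h5 : k < 2 ^ k := Nat.lt_two_pow_self
      rw [pow_add] at hlow ⊢
      omega
    · have h1 : m ≤ 16 * 2 ^ k + 2 * k := by
        rw [pow_add] at hc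
        omega
      have h2 := arith_aux k
      calc (k + 1) * m ≤ (k + 1) * (16 * 2 ^ k + 2 * k) := Nat.mul_le_mul_left _ h1
        _ = 16 * (k + 1) * 2 ^ k + 2 * (k + 1) * k := by ring
        _ ≤ 16 * (k + 1) * 2 ^ k + 48 * 2 ^ k := Nat.add_le_add_left h2 _
        _ = 8 * (k + 4) * 2 ^ (k + 1) := by ring

theorem total_of_local {m : ℕ} (hm : 16 ≤ m) (r : Fin m → Fin m → ℕ)
    (h : ∀ f : ℕ, 1 ≤ f → 4 * 2 ^ f + 2 * f ≤ m + 3 → ∀ ρ γ : Fin (2 * f) → Fin m,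
      Function.Injective ρ → Function.Injective γ → 2 ^ f ≤ ∑ t, r (ρ t) (γ t)) :
    m ^ 3 ≤ 16 * Nat.log 2 m * ∑ i, ∑ j, r i j := by
  obtain ⟨f, hf1, hf2, hf3, _⟩ := log_arith hm
  have hw := window (f := f) (N := 2 ^ f) (by
      have : 1 ≤ 2 ^ f := Nat.one_le_two_pow
      omega) r (h f hf1 hf2)
  apply Nat.le_of_mul_le_mul_left (c := f) _ hf1
  calc f * m ^ 3 = (f * m) * m ^ 2 := by ring
    _ ≤ (8 * Nat.log 2 m * 2 ^ f) * m ^ 2 := Nat.mul_le_mul_right _ hf3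
    _ = 8 * Nat.log 2 m * (m ^ 2 * 2 ^ f) := by ring
    _ ≤ 8 * Nat.log 2 m * (2 * f * ∑ i, ∑ j, r i j) := Nat.mul_le_mul_left _ hw
    _ = f * (16 * Nat.log 2 m * ∑ i, ∑ j, r i j) := by ring

theorem sum_sq_le {ι : Type*} [Fintype ι] (r : ι → ℕ) : ∑ s, r s ^ 2 ≤ (∑ s, r s) ^ 2 := by
  rw [sq (∑ s, r s), Finset.sum_mul]
  refine Finset.sum_le_sum fun s _ => ?_
  rw [sq]
  exact Nat.mul_le_mul_left _ (Finset.single_le_sum (fun _ _ => Nat.zero_le _) (Finset.mem_univ s))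

theorem total_of_local_k {m k : ℕ} (hm : 16 ≤ m) (hk : 400 * k ≤ m ^ 2)
    (r : Fin k → Fin m → Fin m → ℕ)
    (h : ∀ f : ℕ, 4 * 2 ^ f + 2 * f ≤ m + 3 → ∀ ρ γ : Fin (2 * f) → Fin m,
      Function.Injective ρ → Function.Injective γ → 4 ^ f ≤ k + ∑ s, (∑ t, r s (ρ t) (γ t)) ^ 2) :
    m ^ 3 ≤ 32 * Nat.log 2 m * ∑ s, ∑ i, ∑ j, r s i j := by
  obtain ⟨f, hf1, hf2, hf3, hf4⟩ := log_arith hm
  have h4f : (2 ^ f) ^ 2 = 4 ^ f := by
    rw [← pow_mul, mul_comm, pow_mul]; norm_num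
  have hk4 : 4 * k ≤ 3 * 4 ^ f := by
    have h1 : m ^ 2 ≤ (16 * 2 ^ f) ^ 2 := Nat.pow_le_pow_left hf4 2
    rw [mul_pow, h4f] at h1
    omega
  have hl : ∀ ρ γ : Fin (2 * f) → Fin m, Function.Injective ρ → Function.Injective γ →
      2 ^ (f - 1) ≤ ∑ t, ∑ s, r s (ρ t) (γ t) := by
    intro ρ γ hρ hγ
    have h1 := h f hf2 ρ γ hρ hγ
    have h2 := sum_sq_le (fun s => ∑ t, r s (ρ t) (γ t))
    rw [Finset.sum_comm]
    by_contra hlt
    push Not at hlt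
    have h3 : (∑ s, ∑ t, r s (ρ t) (γ t)) ^ 2 < (2 ^ (f - 1)) ^ 2 :=
      Nat.pow_lt_pow_left hlt (by norm_num)
    have h5 : 4 * (2 ^ (f - 1)) ^ 2 = 4 ^ f := by
      rw [← h4f]
      obtain ⟨g, rfl⟩ : ∃ g, f = g + 1 := ⟨f - 1, by omega⟩
      rw [Nat.add_sub_cancel]
      ring
    omega
  have hw := window (f := f) (N := 2 ^ (f - 1)) (by
      have : 1 ≤ 2 ^ f := Nat.one_le_two_pow
      omega) (fun i j => ∑ s, r s i j) hl
  have hsum : ∑ i, ∑ j, ∑ s, r s i j = ∑ s, ∑ i, ∑ j, r s i j := by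
    rw [Finset.sum_comm]
    calc ∑ y, ∑ x, ∑ s, r s x y = ∑ y, ∑ s, ∑ x, r s x y :=
          Finset.sum_congr rfl fun _ _ => Finset.sum_comm
      _ = ∑ s, ∑ y, ∑ x, r s x y := Finset.sum_comm
      _ = ∑ s, ∑ i, ∑ j, r s i j := Finset.sum_congr rfl fun _ _ => Finset.sum_comm
  rw [hsum] at hw
  have h2f : 2 * 2 ^ (f - 1) = 2 ^ f := by
    rw [← pow_succ']; congr 1; omega
  apply Nat.le_of_mul_le_mul_left (c := f) _ hf1
  calc f * m ^ 3 = (f * m) * m ^ 2 := by ring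
    _ ≤ (8 * Nat.log 2 m * 2 ^ f) * m ^ 2 := Nat.mul_le_mul_right _ hf3
    _ = 16 * Nat.log 2 m * (m ^ 2 * 2 ^ (f - 1)) := by rw [← h2f]; ring
    _ ≤ 16 * Nat.log 2 m * (2 * f * ∑ s, ∑ i, ∑ j, r s i j) := Nat.mul_le_mul_left _ hw
    _ = f * (32 * Nat.log 2 m * ∑ s, ∑ i, ∑ j, r s i j) := by ring

end Pool.Agent.T9h99
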