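import Pool.Agent.T9h99.Bound
import Pool.Agent.T9h99.Window

/-! Polynomials in several determinants. -/

namespace Pool.Agent.T9h99

set_option linter.unusedSectionVars false

open MvPolynomial

section zar
variable {K : Type*} [Field K]

/-- the Zariski closure of the image of the polynomial map `Φ` -/
def ZCl {σ ι : Type} (Φ : ι → MvPolynomial σ K) : Set (ι → K) :=
  {g | ∀ Q : MvPolynomial ι K, (∀ z : σ → K, eval (fun b => eval z (Φ b)) Q = 0) → eval g Q = 0}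

theorem card_le_of_univ [Infinite K] {σ ι : Type} [Fintype σ] [Fintype ι] [Nonempty ι]
    (Φ : ι → MvPolynomial σ K) (h : ∀ g : ι → K, g ∈ ZCl Φ) :
    Fintype.card ι ≤ Fintype.card σ :=
  card_le_of_dense Φ (Classical.arbitrary ι) fun g _ Q hQ => h g Q hQ

theorem mem_ZCl_of_eval {σ ι : Type} (Φ : ι → MvPolynomial σ K) (z : σ → K) :
    (fun b => eval z (Φ b)) ∈ ZCl Φ := fun _ hQ => hQ z

end zar

theorem isClosed_ZCl {σ ι : Type} (Φ : ι → MvPolynomial σ ℂ) : IsClosed (ZCl Φ) := by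
  have : ZCl Φ = ⋂ (Q : MvPolynomial ι ℂ)
      (_ : ∀ z : σ → ℂ, eval (fun b => eval z (Φ b)) Q = 0), {g : ι → ℂ | eval g Q = 0} := by
    ext g
    simp [ZCl]
  rw [this]
  exact isClosed_iInter fun Q => isClosed_iInter fun _ =>
    isClosed_singleton.preimage (MvPolynomial.continuous_eval Q)

/-- for small nonzero `ε` the matrix `M + ε` is invertible -/
theorem eventually_det_ne {n : ℕ} (M : Matrix (Fin n) (Fin n) ℂ) :
    ∀ᶠ ε : ℂ in nhdsWithin 0 {0}ᶜ, (M + ε • (1 : Matrix (Fin n) (Fin n) ℂ)).det ≠ 0 := by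
  have h1 : ∀ ε : ℂ, (M + ε • (1 : Matrix (Fin n) (Fin n) ℂ)).det = (-M).charpoly.eval ε := by
    intro ε
    rw [Matrix.eval_charpoly]
    congr 1
    rw [sub_neg_eq_add, add_comm]
    congr 1
    ext i j
    simp [Matrix.scalar, Matrix.smul_apply, Matrix.one_apply, Matrix.diagonal_apply]
  have hne : (-M).charpoly ≠ 0 := (Matrix.charpoly_monic _).ne_zero
  have hfin : ({ε : ℂ | (-M).charpoly.eval ε = 0} \ {0}).Finite := by
    apply Set.Finite.subset ((-M).charpoly.roots.toFinset.finite_toSet)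
    intro ε hε
    simp only [Finset.mem_coe, Multiset.mem_toFinset]
    exact (Polynomial.mem_roots hne).2 hε.1
  have hopen : ({ε : ℂ | (-M).charpoly.eval ε = 0} \ {0})ᶜ ∈ nhds (0 : ℂ) := by
    apply hfin.isClosed.isOpen_compl.mem_nhds
    simp
  filter_upwards [mem_nhdsWithin_of_mem_nhds hopen, self_mem_nhdsWithin] with ε h2 h3
  rw [h1]
  intro h4
  exact h2 ⟨h4, h3⟩

section tuple

variable {τ : Type} [Fintype τ] [DecidableEq τ] {k : ℕ}

/-- index type of the parameters -/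
abbrev Par (ν : Fin k → τ → ℕ) : Type :=
  Σ s : Fin k, Option ((Σ t, Fin (ν s t)) × (Σ t, Fin (ν s t)))

noncomputable def ΦF (F : MvPolynomial (Fin k) ℂ) (ν : Fin k → τ → ℕ) {ι : Type} (d : ι → τ → ℂ)
    (b : ι) : MvPolynomial (Par ν) ℂ :=
  aeval (fun s => rename (Sigma.mk s) (Φr (ν s) d b)) F

theorem eval_ΦF (F : MvPolynomial (Fin k) ℂ) (ν : Fin k → τ → ℕ) {ι : Type} (d : ι → τ → ℂ)
    (b : ι) (z : Par ν → ℂ) :
    eval z (ΦF F ν d b) = eval (fun s => eval (fun o => z ⟨s, o⟩) (Φr (ν s) d b)) F := by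
  have hcomp : (eval z).comp ((aeval (fun s => rename (Sigma.mk s) (Φr (ν s) d b)) :
      MvPolynomial (Fin k) ℂ →ₐ[ℂ] MvPolynomial (Par ν) ℂ) :
        MvPolynomial (Fin k) ℂ →+* MvPolynomial (Par ν) ℂ) =
      eval (fun s => eval (fun o => z ⟨s, o⟩) (Φr (ν s) d b)) := by
    apply MvPolynomial.ringHom_ext
    · intro r; simp
    · intro i
      simp only [RingHom.comp_apply, RingHom.coe_coe, aeval_X, eval_X]
      rw [eval_rename]
      rfl
  rw [← hcomp]
  rfl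

theorem card_Par (ν : Fin k → τ → ℕ) :
    Fintype.card (Par ν) = k + ∑ s, (∑ t, ν s t) ^ 2 := by
  rw [Fintype.card_sigma, Finset.sum_congr rfl (fun s _ => card_param (ν s)),
    Finset.sum_add_distrib]
  simp
  ring

theorem mem_ZCl_det (F : MvPolynomial (Fin k) ℂ) {n : Fin k → ℕ}
    (M : ∀ s, Matrix (Fin (n s)) (Fin (n s)) ℂ) (A : ∀ s, τ → Matrix (Fin (n s)) (Fin (n s)) ℂ)
    {ι : Type} (d : ι → τ → ℂ) (ν : Fin k → τ → ℕ) (hν : ν = fun s t => (A s t).rank) :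
    (fun b => eval (fun s => (M s + ∑ t, d b t • A s t).det) F) ∈ ZCl (ΦF F ν d) := by
  have hinv : ∀ M' : ∀ s, Matrix (Fin (n s)) (Fin (n s)) ℂ, (∀ s, (M' s).det ≠ 0) →
      (fun b => eval (fun s => (M' s + ∑ t, d b t • A s t).det) F) ∈ ZCl (ΦF F ν d) := by
    intro M' hM'
    have := fun s => det_param (M' s) (hM' s) (A s) d (ν s) (by rw [hν])
    choose z hz using this
    have h2 : (fun b => eval (fun s => (M' s + ∑ t, d b t • A s t).det) F) =
        fun b => eval (fun p : Par ν => z p.1 p.2) (ΦF F ν d b) := by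
      funext b
      rw [eval_ΦF]
      congr 2
      funext s
      exact hz s b
    rw [h2]
    exact mem_ZCl_of_eval _ _
  have hlim : Filter.Tendsto (fun ε : ℂ => fun b : ι =>
      eval (fun s => ((M s + ε • (1 : Matrix (Fin (n s)) (Fin (n s)) ℂ)) +
        ∑ t, d b t • A s t).det) F)
      (nhdsWithin 0 {0}ᶜ) (nhds (fun b => eval (fun s => (M s + ∑ t, d b t • A s t).det) F)) := by
    apply Filter.Tendsto.mono_left _ nhdsWithin_le_nhds
    rw [tendsto_pi_nhds]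
    intro b
    have hc : Continuous (fun ε : ℂ => eval (fun s => ((M s + ε • (1 : Matrix (Fin (n s)) (Fin (n s)) ℂ)) +
        ∑ t, d b t • A s t).det) F) := by
      apply (MvPolynomial.continuous_eval F).comp
      apply continuous_pi
      intro s
      apply Continuous.matrix_det
      fun_prop
    have := hc.tendsto 0
    simpa using this
  have hall : ∀ᶠ ε : ℂ in nhdsWithin 0 {0}ᶜ,
      ∀ s, (M s + ε • (1 : Matrix (Fin (n s)) (Fin (n s)) ℂ)).det ≠ 0 := by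
    rw [Filter.eventually_all]
    intro s
    exact eventually_det_ne (M s)
  exact (isClosed_ZCl _).mem_of_tendsto hlim (hall.mono fun ε hε => hinv _ hε)

end tuple

theorem poly_bound {m f k : ℕ}
    (hm : 4 * 2 ^ f + 2 * f ≤ m + 3) (F : MvPolynomial (Fin k) ℂ) (n : ℕ → Fin k → ℕ)
    (A0 : ∀ κ s, Matrix (Fin (n κ s)) (Fin (n κ s)) ℂ)
    (A : ∀ κ s, Fin m → Fin m → Matrix (Fin (n κ s)) (Fin (n κ s)) ℂ)
    (H : ∀ x : Matrix (Fin m) (Fin m) ℂ, Filter.Tendsto
      (fun κ => eval (fun s => (A0 κ s + ∑ i, ∑ j, x i j • A κ s i j).det) F)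
      Filter.atTop (nhds x.permanent))
    (ρ γ : Fin f ⊕ Fin f → Fin m) (hρ : Function.Injective ρ) (hγ : Function.Injective γ) :
    ∀ᶠ κ in Filter.atTop, 4 ^ f ≤ k + ∑ s, (∑ t, (A κ s (ρ t) (γ t)).rank) ^ 2 := by
  have main : ∀ ν : Fin k → Fin f ⊕ Fin f → Fin (2 ^ f), k + ∑ s, (∑ t, (ν s t : ℕ)) ^ 2 < 4 ^ f →
      ∀ᶠ κ in Filter.atTop,
        ¬ ((fun s t => (ν s t : ℕ)) = fun s t => (A κ s (ρ t) (γ t)).rank) := by
    intro ν hν
    by_contra hcon
    rw [Filter.not_eventually] at hcon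
    simp only [not_not] at hcon
    have : Nonempty (Lev f × Lev f) := ⟨b00 f⟩
    have : 4 ^ f ≤ k + ∑ s, (∑ t, (ν s t : ℕ)) ^ 2 := by
      rw [← card_index, ← card_Par (fun s t => (ν s t : ℕ))]
      apply card_le_of_univ (K := ℂ) (ΦF F (fun s t => (ν s t : ℕ)) (fun b t => (YY f b t : ℂ)))
      intro g
      obtain ⟨x0, hx0⟩ := key (K := ℂ) two_ne_zero hm ρ γ hρ hγ g
      have hG : Filter.Tendsto (fun κ => fun b => eval (fun s =>
          ((A0 κ s + ∑ i, ∑ j, x0 i j • A κ s i j) +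
            ∑ t, (YY f b t : ℂ) • A κ s (ρ t) (γ t)).det) F) Filter.atTop (nhds g) := by
        rw [tendsto_pi_nhds]
        intro b
        rw [← hx0 b]
        have := H (x0 + ∑ t, Matrix.single (ρ t) (γ t) (Sum.elim (Yc f b.1) (Yc f b.2) t))
        simp only [lin_sum] at this
        simp only [add_assoc]
        exact this
      exact (isClosed_ZCl _).mem_of_frequently_of_tendsto
        (hcon.mono fun κ hκ => mem_ZCl_det F _ (fun s t => A κ s (ρ t) (γ t)) _ _ hκ) hG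
    omega
  have hall : ∀ᶠ κ in Filter.atTop, ∀ ν : Fin k → Fin f ⊕ Fin f → Fin (2 ^ f),
      k + ∑ s, (∑ t, (ν s t : ℕ)) ^ 2 < 4 ^ f →
      ¬ ((fun s t => (ν s t : ℕ)) = fun s t => (A κ s (ρ t) (γ t)).rank) := by
    rw [Filter.eventually_all]
    intro ν
    by_cases hν : k + ∑ s, (∑ t, (ν s t : ℕ)) ^ 2 < 4 ^ f
    · filter_upwards [main ν hν] with κ hκ _
      exact hκ
    · exact Filter.Eventually.of_forall fun κ h => absurd h hν
  filter_upwards [hall] with κ hκ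
  by_contra hlt
  push Not at hlt
  have hb : ∀ s t, (A κ s (ρ t) (γ t)).rank < 2 ^ f := by
    intro s t
    by_contra hge
    push Not at hge
    have h1 : (A κ s (ρ t) (γ t)).rank ≤ ∑ t, (A κ s (ρ t) (γ t)).rank :=
      Finset.single_le_sum (f := fun t => (A κ s (ρ t) (γ t)).rank)
        (fun _ _ => Nat.zero_le _) (Finset.mem_univ t)
    have h2 : (∑ t, (A κ s (ρ t) (γ t)).rank) ^ 2 ≤
        ∑ s, (∑ t, (A κ s (ρ t) (γ t)).rank) ^ 2 :=
      Finset.single_le_sum (f := fun s => (∑ t, (A κ s (ρ t) (γ t)).rank) ^ 2)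
        (fun _ _ => Nat.zero_le _) (Finset.mem_univ s)
    have h3 : (2 ^ f) ^ 2 ≤ (∑ t, (A κ s (ρ t) (γ t)).rank) ^ 2 :=
      Nat.pow_le_pow_left (hge.trans h1) 2
    have h4 : (2 ^ f) ^ 2 = 4 ^ f := by
      rw [← pow_mul, mul_comm, pow_mul]; norm_num
    omega
  exact hκ (fun s t => ⟨_, hb s t⟩) hlt rfl

theorem isqrt_aux {f k r : ℕ} (h : 4 ^ f ≤ k + r ^ 2) (hk : 4 * k ≤ 3 * 4 ^ f) (hf : 1 ≤ f) :
    2 ^ (f - 1) ≤ r := by
  obtain ⟨g, rfl⟩ : ∃ g, f = g + 1 := ⟨f - 1, by omega⟩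
  rw [Nat.add_sub_cancel]
  by_contra hlt
  push Not at hlt
  have h1 : r ^ 2 < (2 ^ g) ^ 2 := Nat.pow_lt_pow_left hlt (by norm_num)
  have h4 : (2 ^ g) ^ 2 = 4 ^ g := by
    rw [← pow_mul, mul_comm, pow_mul]; norm_num
  rw [pow_succ] at h hk
  omega

end Pool.Agent.T9h99
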